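import Mathlib
import Pool.Agent.Lib.MP_9cfc0a_nt.Mg.G023
import Pool.Agent.Lib.MP_9cfc0a_nt.MW.A21
import Pool.Agent.Lib.MP_9cfc0a_nt.MY.L1
import Pool.Agent.Lib.MP_9cfc0a_nt.MY.L2
import Pool.Agent.Lib.MP_9cfc0a_nt.Mg.G033
import Pool.Agent.Lib.MP_9cfc0a_nt.Mg.G029

set_option autoImplicit false

namespace Pool.Agent.MU

open Complex Finset MY MZ MW

/-- U12. The lower bound, uniformly in `X ≥ q` (as `MW.A21`). -/
theorem lowerU (θ J η : ℝ) (hθ : 1 / 2 ≤ θ) (hθ1 : θ < 1) (hJ : 12 ≤ J) (hη : 0 < η) :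
    ∃ (K₃ ν : ℝ) (q₀ : ℕ), 1 ≤ K₃ ∧ 0 < ν ∧ ν ≤ 1 / 4 ∧
    ∀ (q : ℕ) [NeZero q], q₀ ≤ q → ∀ X : ℝ, (q : ℝ) ≤ X →
    ∀ T : ℝ, 0 ≤ T → T + 6 ≤ (q : ℝ) ^ ν → 1 ≤ NZ q θ T →
    ∃ s : ℂ, s.re = 2 ∧ ‖s‖ ≤ T + 3 ∧ ∃ k : ℕ, J * Real.log X ≤ k ∧
      (k : ℝ) ≤ K₃ * Real.log X ∧
      X ^ (-η) * (NZ q θ T / q.totient) ≤ uA q θ s k := by
  classical
  obtain ⟨C, hC, hw⟩ := A21_window
  obtain ⟨J', hJ'⟩ : ∃ J' : ℝ, J' = max J (2 * C + 1) := ⟨_, rfl⟩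
  have hJJ : J ≤ J' := by rw [hJ']; exact le_max_left _ _
  have hJC : 2 * C + 1 ≤ J' := by rw [hJ']; exact le_max_right _ _
  have hJ12 : 12 ≤ J' := hJ.trans hJJ
  have hJ0 : 0 < J' := by linarith
  obtain ⟨ε, hε⟩ : ∃ ε : ℝ, ε = min (1 / 20) (η / (8 * J')) := ⟨_, rfl⟩
  have hε0 : 0 < ε := by rw [hε]; exact lt_min (by norm_num) (by positivity)
  have hε1 : ε ≤ 1 / 20 := by rw [hε]; exact min_le_left _ _
  have hε2 : ε * (8 * J') ≤ η := by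
    have h : ε ≤ η / (8 * J') := by rw [hε]; exact min_le_right _ _
    rwa [le_div_iff₀ (by positivity)] at h
  obtain ⟨L, m₀, hL, hwin⟩ := hw ε hε0
  have hLR : (1 : ℝ) ≤ L := by exact_mod_cast hL
  obtain ⟨X₁, hX₁⟩ := Filter.eventually_atTop.mp (EM.evX_log (8 * C) (1 / 2) (by norm_num))
  obtain ⟨C₄, hC₄⟩ : ∃ C₄ : ℝ, C₄ = 432 * (L * J') := ⟨_, rfl⟩
  have hC₄1 : 1 ≤ C₄ := by
    rw [hC₄]
    have h1 : 1 * 1 ≤ (L : ℝ) * J' := mul_le_mul hLR (by linarith) zero_le_one (by linarith)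
    linarith
  have hC₄0 : 0 ≤ C₄ := by linarith
  obtain ⟨X₂, hX₂⟩ := Filter.eventually_atTop.mp (EM.evX_log C₄ (η / 4) (by positivity))
  have hev := ((((((EM.ev_const X₂ 1 one_pos).and (EM.ev_logC 10)).and
    (EM.ev_logC m₀)).and (EM.ev_const X₁ 1 one_pos)).and
    (Filter.eventually_ge_atTop 1681)).and (EM.ev_logC (2 * (3 * L * J'))))
  obtain ⟨q₀, hq₀⟩ := Filter.eventually_atTop.mp hev
  refine ⟨max 1 (L * (J' + 1)), min (1 / 4) (η / 8), q₀, le_max_left _ _,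
    lt_min (by norm_num) (by positivity), min_le_left _ _,
    fun q _ hq X hqX T hT0 hTq hNZ => ?_⟩
  obtain ⟨⟨⟨⟨⟨hq1, hq2⟩, hq3⟩, hq4⟩, hq5⟩, hq6⟩ := hq₀ q hq
  rw [Real.rpow_one] at hq1 hq4
  have hqR : (1681 : ℝ) ≤ q := by exact_mod_cast hq5
  have hq0 : (0 : ℝ) < q := by linarith
  have hq1' : (1 : ℝ) ≤ q := by linarith
  have hX0 : (0 : ℝ) < X := by linarith
  have hX1' : (1 : ℝ) ≤ X := by linarith
  obtain ⟨ℓ, hℓ⟩ : ∃ ℓ : ℝ, ℓ = Real.log X := ⟨_, rfl⟩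
  have hlogX : Real.log q ≤ ℓ := by rw [hℓ]; exact Real.log_le_log hq0 hqX
  have hℓ10 : 10 ≤ ℓ := by linarith
  have hℓ0 : 0 < ℓ := by linarith
  have hX : 8 * C * ℓ ≤ Real.exp (1 / 2 * ℓ) := by
    have h1 := hX₁ X (by linarith)
    rw [← hℓ] at h1
    refine h1.trans (le_of_eq ?_)
    rw [Real.rpow_def_of_pos hX0, ← hℓ, mul_comm]
  have hTq4 : T + 6 ≤ (q : ℝ) ^ (1 / 4 : ℝ) :=
    hTq.trans (Real.rpow_le_rpow_of_exponent_le hq1' (min_le_left _ _))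
  have hTq8 : T + 6 ≤ X ^ (η / 8) :=
    (hTq.trans (Real.rpow_le_rpow_of_exponent_le hq1' (min_le_right _ _))).trans
      (Real.rpow_le_rpow hq0.le hqX (by positivity))
  have hC₄X : C₄ * ℓ ^ 2 ≤ X ^ (η / 2) := by
    have h1 := hX₂ X (by linarith)
    rw [← hℓ] at h1
    have h2 : X ^ (η / 2) = (X ^ (η / 4)) ^ 2 := by
      rw [← Real.rpow_natCast, ← Real.rpow_mul hX0.le]
      congr 1
      push_cast
      ring
    have h3 : (C₄ * ℓ) ^ 2 ≤ (X ^ (η / 4)) ^ 2 := pow_le_pow_left₀ (by positivity) h1 2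
    have h4 : C₄ * ℓ ^ 2 ≤ (C₄ * ℓ) ^ 2 := by
      have h5 : 0 ≤ C₄ * ℓ ^ 2 := by positivity
      have h6 : (C₄ * ℓ) ^ 2 = C₄ * (C₄ * ℓ ^ 2) := by ring
      rw [h6]
      exact le_mul_of_one_le_left h5 hC₄1
    rw [h2]
    exact h4.trans h3
  obtain ⟨m, hm⟩ : ∃ m : ℕ, m = ⌈J' * ℓ⌉₊ + 1 := ⟨_, rfl⟩
  have hJℓ0 : 0 ≤ J' * ℓ := by positivity
  have hm1 : J' * ℓ + 1 ≤ m := by
    rw [hm]
    push_cast
    linarith [Nat.le_ceil (J' * ℓ)]
  have hm2 : (m : ℝ) ≤ J' * ℓ + 2 := by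
    rw [hm]
    push_cast
    linarith [(Nat.ceil_lt_add_one hJℓ0).le]
  have hphi : (0 : ℝ) < q.totient := by
    exact_mod_cast Nat.totient_pos.mpr (Nat.pos_of_ne_zero (NeZero.ne q))
  obtain ⟨W, hWc, hW⟩ : ∃ W : Finset (DirichletCharacter ℂ q), W.card = NZ q θ T ∧
      ∀ χ ∈ W, χ ∈ nt q ∧ ∃ s : ℂ, θ ≤ s.re ∧ s.re < 1 ∧ |s.im| ≤ T ∧ χ.LFunction s = 0 :=
    ⟨_, rfl, fun χ hχ => mem_filter.mp hχ⟩
  have hWpos : 0 < W.card := by omega
  -- the index set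
  obtain ⟨M, hM⟩ : ∃ M : ℕ, M = ⌈T * ℓ + 1⌉₊ := ⟨_, rfl⟩
  have hTℓ0 : 0 ≤ T * ℓ := by positivity
  have hMl : T * ℓ + 1 ≤ M := by rw [hM]; exact Nat.le_ceil _
  have hMu : (M : ℝ) ≤ T * ℓ + 2 := by
    rw [hM]
    have := (Nat.ceil_lt_add_one (show 0 ≤ T * ℓ + 1 by positivity)).le
    linarith
  obtain ⟨I, hI⟩ : ∃ I : Finset (ℕ × ℤ), I = range (L * m + 1) ×ˢ Finset.Icc (-(M : ℤ)) M :=
    ⟨_, rfl⟩
  have hmu : (m : ℝ) ≤ 2 * (J' * ℓ) := by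
    have : 12 * 10 ≤ J' * ℓ := mul_le_mul hJ12 hℓ10 (by norm_num) (by positivity)
    linarith
  have hIcard : (I.card : ℝ) ≤ 6 * (L * J') * ℓ ^ 2 * (T + 6) := by
    have e1 : I.card = (L * m + 1) * (2 * M + 1) := by
      rw [hI, card_product, card_range, Int.card_Icc]
      congr 1
      omega
    rw [e1]
    push_cast
    have e0 : 1 ≤ L * (J' * ℓ) := by
      have : 12 * 10 ≤ J' * ℓ := mul_le_mul hJ12 hℓ10 (by norm_num) (by positivity)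
      exact one_le_mul_of_one_le_of_one_le hLR (by linarith)
    have e2 : (L : ℝ) * m + 1 ≤ 3 * (L * (J' * ℓ)) := by
      have h1 : (L : ℝ) * m ≤ L * (2 * (J' * ℓ)) := by gcongr
      have h2 : (L : ℝ) * (2 * (J' * ℓ)) = 2 * (L * (J' * ℓ)) := by ring
      linarith
    have e3 : 2 * (M : ℝ) + 1 ≤ 2 * (ℓ * (T + 6)) := by
      have h1 : 2 * (ℓ * (T + 6)) = 2 * (T * ℓ) + 12 * ℓ := by ring
      linarith
    calc ((L : ℝ) * m + 1) * (2 * M + 1) ≤ (3 * (L * (J' * ℓ))) * (2 * (ℓ * (T + 6))) := by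
          gcongr
      _ = 6 * (L * J') * ℓ ^ 2 * (T + 6) := by ring
  have hIne : I.Nonempty := by
    rw [hI]
    refine ⟨(0, 0), ?_⟩
    rw [mem_product]
    refine ⟨by simp, ?_⟩
    rw [Finset.mem_Icc]
    constructor <;> simp
  have hI0 : (0 : ℝ) < I.card := by exact_mod_cast hIne.card_pos
  -- the property
  obtain ⟨P, hP⟩ : ∃ P : DirichletCharacter ℂ q → ℕ × ℤ → Prop, P = fun χ y =>
      m ≤ y.1 + 1 ∧ y.1 ≤ L * m ∧ |(y.2 : ℝ)| ≤ T * ℓ + 1 / 2 ∧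
      1 / 6 * Real.exp (-(ε * m))
        ≤ ‖TC (fun z => -logDeriv χ.LFunction z) (2 + ((y.2 : ℝ) / ℓ : ℝ) * Complex.I) y.1‖
          * (2 - θ) ^ y.1 := ⟨_, rfl⟩
  have hex : ∀ χ ∈ W, ∃ y : ℕ × ℤ, y ∈ I ∧ P χ y := by
    intro χ hχ
    obtain ⟨hχ1, ρ, hρ1, hρ2, hρ3, hρ0⟩ := hW χ hχ
    have hround := abs_sub_round (ρ.im * ℓ)
    obtain ⟨j, hj⟩ : ∃ j : ℤ, j = round (ρ.im * ℓ) := ⟨_, rfl⟩
    rw [← hj] at hround
    have him : ((2 + ((j : ℝ) / ℓ : ℝ) * Complex.I : ℂ)).im = (j : ℝ) / ℓ := by simp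
    have hre : ((2 + ((j : ℝ) / ℓ : ℝ) * Complex.I : ℂ)).re = 2 := by simp
    obtain ⟨k, hk1, hk2, hk3⟩ := A21_one C hC ε hε1 L m₀ hwin θ J' ℓ T hθ hθ1 hJ12 hJC hT0 q χ
      ((mem_nt q χ).mp hχ1) hqR hlogX hq2 hTq4 hq3 hX (hq6.trans hlogX) hL m hm ρ hρ1 hρ2 hρ3 hρ0
      (2 + ((j : ℝ) / ℓ : ℝ) * Complex.I) hre (by
        rw [him]
        have e1 : (j : ℝ) / ℓ - ρ.im = -((ρ.im * ℓ - j) / ℓ) := by
          field_simp
          ring
        rw [e1, abs_neg, abs_div, abs_of_pos hℓ0]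
        gcongr
        linarith)
    have hjabs : |(j : ℝ)| ≤ T * ℓ + 1 / 2 := by
      have e1 : |(j : ℝ)| ≤ |ρ.im * ℓ| + |ρ.im * ℓ - j| := by
        have e2 : (j : ℝ) = ρ.im * ℓ - (ρ.im * ℓ - j) := by ring
        calc |(j : ℝ)| = |ρ.im * ℓ - (ρ.im * ℓ - j)| := by rw [← e2]
          _ ≤ _ := abs_sub _ _
      rw [abs_mul, abs_of_pos hℓ0] at e1
      have e3 : |ρ.im| * ℓ ≤ T * ℓ := mul_le_mul_of_nonneg_right hρ3 hℓ0.le
      linarith
    refine ⟨(k, j), ?_, ?_⟩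
    · rw [hI, mem_product, mem_range, Finset.mem_Icc]
      refine ⟨by omega, ?_, ?_⟩
      · have e1 := neg_abs_le (j : ℝ)
        have e2 : (-(M : ℝ)) ≤ (j : ℝ) := by linarith
        exact_mod_cast e2
      · have e1 := le_abs_self (j : ℝ)
        have e2 : (j : ℝ) ≤ (M : ℝ) := by linarith
        exact_mod_cast e2
    · rw [hP]
      exact ⟨hk1, hk2, hjabs, hk3⟩
  choose! f hf using hex
  obtain ⟨y, hyI, hyc⟩ := Finset.exists_le_card_fiber_of_nsmul_le_card_of_maps_to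
    (s := W) (t := I) (f := f) (fun χ hχ => (hf χ hχ).1) hIne
    (b := (W.card : ℝ) / I.card) (by
      rw [nsmul_eq_mul, mul_div_cancel₀ _ hI0.ne'])
  have hW0 : 0 < (W.card : ℝ) := by exact_mod_cast hWpos
  obtain ⟨W', hW'⟩ : ∃ W' : Finset (DirichletCharacter ℂ q), W' = W.filter (fun χ => f χ = y) :=
    ⟨_, rfl⟩
  rw [← hW'] at hyc
  have hW'0 : 0 < (W'.card : ℝ) := lt_of_lt_of_le (by positivity) hyc
  have hprop : ∀ χ ∈ W', χ ∈ nt q ∧ P χ y := by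
    intro χ hχ
    rw [hW', mem_filter] at hχ
    refine ⟨(hW χ hχ.1).1, ?_⟩
    have := (hf χ hχ.1).2
    rwa [hχ.2] at this
  obtain ⟨χ₀, hχ₀⟩ : W'.Nonempty := by
    rw [← Finset.card_pos]
    exact_mod_cast hW'0
  obtain ⟨k, j⟩ := y
  obtain ⟨s, hs⟩ : ∃ s : ℂ, s = 2 + ((j : ℝ) / ℓ : ℝ) * Complex.I := ⟨_, rfl⟩
  have hP0 := (hprop χ₀ hχ₀).2
  rw [hP] at hP0
  obtain ⟨hk1, hk2, hj, -⟩ := hP0
  simp only at hk1 hk2 hj
  have hsre : s.re = 2 := by rw [hs]; simp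
  have hsim : s.im = (j : ℝ) / ℓ := by rw [hs]; simp
  have hk1R : (m : ℝ) ≤ k + 1 := by exact_mod_cast hk1
  have hk2R : (k : ℝ) ≤ L * m := by exact_mod_cast hk2
  have h2θ : 0 < 2 - θ := by linarith
  refine ⟨s, hsre, ?_, k, ?_, ?_, ?_⟩
  · have e1 : |s.im| ≤ T + 1 := by
      rw [hsim, abs_div, abs_of_pos hℓ0, div_le_iff₀ hℓ0]
      have : (T + 1) * ℓ = T * ℓ + ℓ := by ring
      linarith
    calc ‖s‖ ≤ |s.re| + |s.im| := Complex.norm_le_abs_re_add_abs_im s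
      _ ≤ T + 3 := by
          rw [hsre]
          have : (|(2 : ℝ)|) = 2 := abs_of_pos (by norm_num)
          rw [this]
          linarith
  · rw [← hℓ]
    have : J * ℓ ≤ J' * ℓ := mul_le_mul_of_nonneg_right hJJ hℓ0.le
    linarith
  · rw [← hℓ]
    have e1 : (L : ℝ) * m ≤ L * ((J' + 1) * ℓ) := by
      gcongr
      have : (J' + 1) * ℓ = J' * ℓ + ℓ := by ring
      linarith
    have e2 : (L : ℝ) * ((J' + 1) * ℓ) = L * (J' + 1) * ℓ := by ring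
    have e3 : L * (J' + 1) * ℓ ≤ max 1 (L * (J' + 1)) * ℓ :=
      mul_le_mul_of_nonneg_right (le_max_right _ _) hℓ0.le
    linarith
  · -- the energy
    have hsplit : uA q θ s k
        = (2 - θ) ^ (2 * k) * ∑ a : (ZMod q)ˣ, ‖Dk q s k a‖ ^ 2 := by
      unfold uA
      rw [mul_sum]
      refine sum_congr rfl fun a _ => ?_
      rw [mul_pow, ← pow_mul, mul_comm k 2]
      ring
    rw [hsplit, parseval]
    obtain ⟨E, hE⟩ : ∃ E : ℝ, E = Real.exp (-(ε * m)) := ⟨_, rfl⟩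
    have hE0 : 0 < E := by rw [hE]; exact Real.exp_pos _
    have hsum : (W'.card : ℝ) * (1 / 36 * E ^ 2)
        ≤ (2 - θ) ^ (2 * k) * ∑ χ ∈ nt q, ‖TC (fun z => -logDeriv χ.LFunction z) s k‖ ^ 2 := by
      have h1 : W' ⊆ nt q := fun χ hχ => (hprop χ hχ).1
      have h2 : ∑ χ ∈ W', ‖TC (fun z => -logDeriv χ.LFunction z) s k‖ ^ 2
          ≤ ∑ χ ∈ nt q, ‖TC (fun z => -logDeriv χ.LFunction z) s k‖ ^ 2 :=
        sum_le_sum_of_subset_of_nonneg h1 fun _ _ _ => sq_nonneg _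
      have h2' : (2 - θ) ^ (2 * k) * ∑ χ ∈ W', ‖TC (fun z => -logDeriv χ.LFunction z) s k‖ ^ 2
          ≤ (2 - θ) ^ (2 * k) * ∑ χ ∈ nt q, ‖TC (fun z => -logDeriv χ.LFunction z) s k‖ ^ 2 :=
        mul_le_mul_of_nonneg_left h2 (by positivity)
      refine le_trans ?_ h2'
      have h3 : (W'.card : ℝ) * (1 / 36 * E ^ 2) = ∑ χ ∈ W', (1 / 36 * E ^ 2) := by
        rw [sum_const, nsmul_eq_mul]
      rw [h3, mul_sum]
      refine sum_le_sum fun χ hχ => ?_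
      have h4 := (hprop χ hχ).2
      rw [hP] at h4
      obtain ⟨-, -, -, h5⟩ := h4
      simp only at h5
      rw [← hE, ← hs] at h5
      have h6 := pow_le_pow_left₀ (by positivity) h5 2
      calc 1 / 36 * E ^ 2 = (1 / 6 * E) ^ 2 := by ring
        _ ≤ _ := h6
        _ = _ := by
          rw [mul_pow, ← pow_mul, mul_comm k 2]
          ring
    have hmain : X ^ (-η) ≤ 1 / I.card * (1 / 36 * E ^ 2) := by
      have e1 : 36 * (I.card : ℝ) ≤ X ^ η * E ^ 2 := by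
        have e2 : E ^ 2 = Real.exp (-(2 * (ε * m))) := by
          rw [hE, ← Real.exp_nat_mul]
          congr 1
          push_cast
          ring
        have e3 : 2 * (ε * m) ≤ η / 4 * ℓ + 1 / 5 := by
          have h1 : ε * m ≤ ε * (J' * ℓ + 2) := mul_le_mul_of_nonneg_left hm2 hε0.le
          have h3 : ε * (8 * J') * ℓ ≤ η * ℓ :=
            mul_le_mul_of_nonneg_right hε2 (by linarith)
          have h4 : ε * (8 * J') * ℓ = 8 * (ε * (J' * ℓ)) := by ring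
          have h5 : ε * (J' * ℓ + 2) = ε * (J' * ℓ) + 2 * ε := by ring
          linarith
        have e4 : Real.exp (1 / 5) ≤ 2 := by
          have h1 : Real.exp (1 / 5) ≤ Real.exp (1 / 2) := Real.exp_le_exp.mpr (by norm_num)
          have h2 : Real.exp (1 / 2) ^ 2 = Real.exp 1 := by
            rw [← Real.exp_nat_mul]; norm_num
          have h3 : Real.exp (1 / 2) ≤ 2 := by
            nlinarith only [h2, Real.exp_one_lt_d9, Real.exp_pos (1 / 2)]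
          linarith
        have e5 : X ^ (-(η / 4)) ≤ 2 * E ^ 2 := by
          have h1 : X ^ (-(η / 4)) * 1 ≤ X ^ (-(η / 4)) *
              (Real.exp (1 / 5) * Real.exp (-(1 / 5))) := by
            rw [← Real.exp_add]
            simp
          have h2 : X ^ (-(η / 4)) * Real.exp (-(1 / 5)) ≤ E ^ 2 := by
            rw [e2, Real.rpow_def_of_pos hX0, ← Real.exp_add, Real.exp_le_exp, ← hℓ]
            linarith
          calc X ^ (-(η / 4)) = X ^ (-(η / 4)) * 1 := (mul_one _).symm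
            _ ≤ X ^ (-(η / 4)) * (Real.exp (1 / 5) * Real.exp (-(1 / 5))) := h1
            _ = Real.exp (1 / 5) * (X ^ (-(η / 4)) * Real.exp (-(1 / 5))) := by ring
            _ ≤ 2 * E ^ 2 := mul_le_mul e4 h2 (by positivity) (by norm_num)
        have e6 : 72 * (I.card : ℝ) ≤ X ^ (η / 2) * X ^ (η / 8) := by
          calc 72 * (I.card : ℝ) ≤ 72 * (6 * (L * J') * ℓ ^ 2 * (T + 6)) := by gcongr
            _ = C₄ * ℓ ^ 2 * (T + 6) := by rw [hC₄]; ring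
            _ ≤ X ^ (η / 2) * X ^ (η / 8) := by gcongr
        have e7 : X ^ (η / 2) * X ^ (η / 8) ≤ X ^ η * X ^ (-(η / 4)) := by
          rw [← Real.rpow_add hX0, ← Real.rpow_add hX0]
          exact Real.rpow_le_rpow_of_exponent_le hX1' (by linarith)
        have e8 : X ^ η * X ^ (-(η / 4)) ≤ X ^ η * (2 * E ^ 2) := by gcongr
        linarith
      have e9 : X ^ (-η) = (X ^ η)⁻¹ := Real.rpow_neg hX0.le _
      have e10 : 0 < X ^ η := by positivity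
      rw [e9, inv_le_iff_one_le_mul₀ e10]
      have e11 : 1 / I.card * (1 / 36 * E ^ 2) * X ^ η =
          (X ^ η * E ^ 2) / (36 * I.card) := by
        field_simp
      rw [e11, one_le_div (by positivity)]
      exact e1
    have hfin : (NZ q θ T : ℝ) / q.totient * (1 / I.card * (1 / 36 * E ^ 2)) ≤
        (2 - θ) ^ (2 * k) * (1 / (q.totient : ℝ) *
          ∑ χ ∈ nt q, ‖TC (fun z => -logDeriv χ.LFunction z) s k‖ ^ 2) := by
      have e1 : (NZ q θ T : ℝ) / q.totient * (1 / I.card * (1 / 36 * E ^ 2)) =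
          1 / (q.totient : ℝ) * ((W.card : ℝ) / I.card * (1 / 36 * E ^ 2)) := by
        rw [hWc]
        ring
      have e2 : (2 - θ) ^ (2 * k) * (1 / (q.totient : ℝ) *
          ∑ χ ∈ nt q, ‖TC (fun z => -logDeriv χ.LFunction z) s k‖ ^ 2) =
          1 / (q.totient : ℝ) * ((2 - θ) ^ (2 * k) *
            ∑ χ ∈ nt q, ‖TC (fun z => -logDeriv χ.LFunction z) s k‖ ^ 2) := by ring
      rw [e1, e2]
      refine mul_le_mul_of_nonneg_left ?_ (by positivity)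
      refine le_trans ?_ hsum
      exact mul_le_mul_of_nonneg_right hyc (by positivity)
    refine le_trans ?_ hfin
    rw [mul_comm]
    exact mul_le_mul_of_nonneg_left hmain (by positivity)

end Pool.Agent.MU
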