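import Mathlib
import Pool.Agent.Lib.MP_9cfc0a_nt.Mg.G023
import Pool.Agent.Lib.MP_9cfc0a_nt.Mg.G039
import Pool.Agent.Lib.MP_9cfc0a_nt.Mg.G025

set_option autoImplicit false

namespace Pool.Agent.MU

open Complex Finset MY MZ MW

/-- The weights of one `n` have the sum at most `n^(-θ)`. -/
lemma U3_gi (s : ℂ) (hs : s.re = 2) (θ : ℝ) (hθ1 : θ < 1) (k n : ℕ) (hn : 1 ≤ n) :
    ∑ i ∈ range (k + 1), ‖gi s i n‖ * (2 - θ) ^ i ≤ (n : ℝ) ^ (-θ) := by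
  have hn1 : (1 : ℝ) ≤ n := by exact_mod_cast hn
  have hn0 : (0 : ℝ) < n := by linarith
  have hρ : 0 < 2 - θ := by linarith
  have hl : 0 ≤ Real.log n := Real.log_nonneg hn1
  have h1 : ∀ i ∈ range (k + 1), ‖gi s i n‖ * (2 - θ) ^ i
      = ((2 - θ) * Real.log n) ^ i / (i.factorial : ℝ) / (n : ℝ) ^ 2 := by
    intro i _
    rw [gi_norm s hs i n hn1, mul_pow]
    ring
  rw [sum_congr rfl h1, ← sum_div, div_le_iff₀ (by positivity)]
  refine (Real.sum_le_exp_of_nonneg (by positivity) (k + 1)).trans (le_of_eq ?_)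
  rw [mul_comm (2 - θ), ← Real.rpow_def_of_pos hn0, ← Real.rpow_natCast (n : ℝ) 2,
    ← Real.rpow_add hn0]
  congr 1
  push_cast
  ring

/-- U3. The crude bound for the main sum (no zero free region). -/
lemma XW_crude (q : ℕ) [NeZero q] (θ ε₀ : ℝ) (hθ : 1 / 2 ≤ θ) (hθ1 : θ < 1)
    (B : Finset (ZMod q)ˣ) (X Y : ℝ) (hX : 1 ≤ X) (hXY : X ≤ Y) (s : ℂ) (hs : s.re = 2) (S : ℝ)
    (hS3 : 3 ≤ S) (hS : ‖s‖ ≤ S) (w2 : ℝ) (hw0 : 0 ≤ w2)
    (hw : ∫ x in Set.Ioc X Y, VB q B x / x ^ (1 + 2 * θ) ≤ w2) (k : ℕ) (a : (ZMod q)ˣ) :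
    ‖XW q θ ε₀ B X Y s k a‖ * (2 - θ) ^ k ≤ 2 * S * Real.sqrt w2 * WW q θ ε₀ B a := by
  have hρ : 0 < 2 - θ := by linarith
  have hS0 : 0 ≤ S := by linarith
  have hF : ∀ (j : ℕ) (c : (ZMod q)ˣ), ‖Fj q B X Y s j c‖ * (2 - θ) ^ j ≤ 2 * S * Real.sqrt w2 := by
    intro j c
    have h1 : ‖Fj q B X Y s j c‖ ^ 2 ≤ (2 * S * ((2 - θ)⁻¹) ^ j) ^ 2 * w2 := by
      refine (single_le_sum (f := fun c => ‖Fj q B X Y s j c‖ ^ 2)
        (fun c _ => sq_nonneg _) (mem_univ c)).trans ?_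
      refine (Fj_norm q B θ hθ hθ1 X Y hX hXY s hs S hS3 hS j).trans ?_
      exact mul_le_mul_of_nonneg_left hw (sq_nonneg _)
    have h2 : ‖Fj q B X Y s j c‖ ≤ 2 * S * ((2 - θ)⁻¹) ^ j * Real.sqrt w2 := by
      refine le_of_sq_le_sq ?_ (by positivity)
      rw [mul_pow, Real.sq_sqrt hw0]
      exact h1
    calc ‖Fj q B X Y s j c‖ * (2 - θ) ^ j
        ≤ 2 * S * ((2 - θ)⁻¹) ^ j * Real.sqrt w2 * (2 - θ) ^ j := by gcongr
      _ = 2 * S * Real.sqrt w2 * (((2 - θ)⁻¹) ^ j * (2 - θ) ^ j) := by ring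
      _ = 2 * S * Real.sqrt w2 := by
          rw [← mul_pow, inv_mul_cancel₀ hρ.ne', one_pow, mul_one]
  have hn : ∀ n ∈ (Icc 1 (q * NN q ε₀)).filter (fun n => Nat.Coprime n q),
      ‖((cw q θ ε₀ B a n : ℝ) : ℂ) * Fn q B X Y s k (a * (un q n)⁻¹) n‖ * (2 - θ) ^ k
        ≤ 2 * S * Real.sqrt w2 * (|cw q θ ε₀ B a n| * (n : ℝ) ^ (-θ)) := by
    intro n hn
    have hn1 : 1 ≤ n := (mem_Icc.1 (mem_filter.1 hn).1).1
    have h1 : ‖Fn q B X Y s k (a * (un q n)⁻¹) n‖ * (2 - θ) ^ k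
        ≤ 2 * S * Real.sqrt w2 * (n : ℝ) ^ (-θ) := by
      have h2 : ‖Fn q B X Y s k (a * (un q n)⁻¹) n‖ * (2 - θ) ^ k
          ≤ ∑ i ∈ range (k + 1), 2 * S * Real.sqrt w2 * (‖gi s i n‖ * (2 - θ) ^ i) := by
        unfold Fn
        refine (mul_le_mul_of_nonneg_right (norm_sum_le _ _) (by positivity)).trans ?_
        rw [sum_mul]
        refine sum_le_sum fun i hi => ?_
        have hik : i ≤ k := Nat.lt_succ_iff.1 (mem_range.1 hi)
        have h3 : (2 - θ) ^ k = (2 - θ) ^ i * (2 - θ) ^ (k - i) := by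
          rw [← pow_add, Nat.add_sub_cancel' hik]
        rw [norm_mul, h3]
        calc ‖gi s i n‖ * ‖Fj q B X Y s (k - i) (a * (un q n)⁻¹)‖ *
              ((2 - θ) ^ i * (2 - θ) ^ (k - i))
            = (‖Fj q B X Y s (k - i) (a * (un q n)⁻¹)‖ * (2 - θ) ^ (k - i)) *
              (‖gi s i n‖ * (2 - θ) ^ i) := by ring
          _ ≤ 2 * S * Real.sqrt w2 * (‖gi s i n‖ * (2 - θ) ^ i) :=
              mul_le_mul_of_nonneg_right (hF _ _) (by positivity)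
      refine h2.trans ?_
      rw [← mul_sum]
      exact mul_le_mul_of_nonneg_left (U3_gi s hs θ hθ1 k n hn1) (by positivity)
    rw [norm_mul, Complex.norm_real, Real.norm_eq_abs, mul_assoc]
    calc |cw q θ ε₀ B a n| * (‖Fn q B X Y s k (a * (un q n)⁻¹) n‖ * (2 - θ) ^ k)
        ≤ |cw q θ ε₀ B a n| * (2 * S * Real.sqrt w2 * (n : ℝ) ^ (-θ)) :=
          mul_le_mul_of_nonneg_left h1 (abs_nonneg _)
      _ = 2 * S * Real.sqrt w2 * (|cw q θ ε₀ B a n| * (n : ℝ) ^ (-θ)) := by ring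
  unfold XW WW
  refine (mul_le_mul_of_nonneg_right (norm_sum_le _ _) (by positivity)).trans ?_
  rw [sum_mul]
  refine (sum_le_sum hn).trans ?_
  rw [← mul_sum]
  refine mul_le_mul_of_nonneg_left ?_ (by positivity)
  exact sum_le_sum_of_subset_of_nonneg (filter_subset _ _) fun n _ _ => by positivity

end Pool.Agent.MU
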