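import Mathlib
import Pool.Agent.Lib.MP_9cfc0a_nt.Mg.G023
import Pool.Agent.Lib.MP_9cfc0a_nt.MY.C2
import Pool.Agent.Lib.MP_9cfc0a_nt.MY.C3
import Pool.Agent.Lib.MP_9cfc0a_nt.MW.A12
import Pool.Agent.Lib.MP_9cfc0a_nt.MW.A18

set_option autoImplicit false

namespace Pool.Agent.MU

open Complex Finset MY MZ MW

/-- U4. The error terms, uniformly in `X ≥ q` (numbers; as `MW.A18`). -/
theorem RBU (θ ε₀ K₃ : ℝ) (hθ : 1 / 2 ≤ θ) (hθ1 : θ < 1) (h0 : 0 < ε₀)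
    (h1 : ε₀ ≤ 1 / 10) (hK : 1 ≤ K₃) :
    ∃ (K : ℕ) (ν : ℝ) (q₀ : ℕ), 1 ≤ K ∧ 0 < ν ∧ ν ≤ 1 / 4 ∧ ∀ (q : ℕ) [NeZero q], q₀ ≤ q →
    ∀ S : ℝ, 3 ≤ S → S + 2 ≤ (q : ℝ) ^ ν →
    ∀ X : ℝ, (q : ℝ) ≤ X → ∀ B : Finset (ZMod q)ˣ, B.Nonempty →
    (B.card : ℝ) ≤ (q : ℝ) ^ (θ / (2 - θ) - ε₀) → ∀ Y : ℝ, X ^ K ≤ Y → ∀ (s : ℂ) (I₀ : ℕ),
    ∀ k : ℕ, 60 * Real.log X ≤ k → (k : ℝ) ≤ K₃ * Real.log X →
    ∑ a ∈ B, ((∑ n ∈ Icc 1 (q * NN q ε₀), |cw q θ ε₀ B a n| * Rw q θ B s S Y I₀ k n)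
          * (2 - θ) ^ k) ^ 2
      ≤ (q : ℝ) ^ (-(ε₀ / 4)) * sB q θ B s I₀ k + X ^ (-6 : ℝ) ∧
    (q.totient : ℝ) * (LH S Y k 1 * (2 - θ) ^ k) ^ 2 ≤ X ^ (-6 : ℝ) := by
  obtain ⟨C, q₁, hC, hrc⟩ := rowcol θ ε₀ hθ hθ1 h0 h1
  set K₁ : ℝ := 1 + 2 / (ε₀ / 16) with hK₁
  have hK1 : 0 ≤ K₁ := by positivity
  have hC0 : 0 ≤ C := by linarith
  set M₁ : ℝ := 8 * C ^ 2 * K₁ ^ 2 with hM₁
  have hM10 : 0 ≤ M₁ := by positivity
  set M₂ : ℝ := 120 * C with hM₂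
  have hM20 : 0 ≤ M₂ := by positivity
  set q₂ : ℕ := ⌈M₁ ^ (1 / ε₀)⌉₊ with hq₂
  set q₃ : ℕ := ⌈2 * M₂ ^ 2⌉₊ with hq₃
  refine ⟨⌈4 * K₃ + 20⌉₊ + 1, 1 / 4, max q₁ (max 14400 (max q₂ q₃)), by omega,
    by norm_num, le_rfl, ?_⟩
  intro q _ hq S hS3 hSν X hqX B hB hBc Y hY s I₀ k hk1 hk2
  have hqq₁ : q₁ ≤ q := (le_max_left _ _).trans hq
  have hqr := (le_max_right _ _).trans hq
  have hq14 : 14400 ≤ q := (le_max_left _ _).trans hqr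
  have hqr2 := (le_max_right _ _).trans hqr
  have hqM1 : q₂ ≤ q := (le_max_left _ _).trans hqr2
  have hqM2 : q₃ ≤ q := (le_max_right _ _).trans hqr2
  have hQ14 : (14400 : ℝ) ≤ q := by exact_mod_cast hq14
  have hQ1 : (1 : ℝ) ≤ q := by linarith
  have hQ0 : (0 : ℝ) < q := by linarith
  have hX1 : 1 ≤ X := by linarith
  have hX0 : 0 < X := by linarith
  have hρ0 : 0 < 2 - θ := by linarith
  have hS0 : 0 ≤ S := by linarith
  have hMq : M₁ ≤ (q : ℝ) ^ ε₀ := by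
    have h2 : M₁ ^ (1 / ε₀) ≤ q := (Nat.le_ceil _).trans (by exact_mod_cast hqM1)
    calc M₁ = (M₁ ^ (1 / ε₀)) ^ ε₀ := by
          rw [← Real.rpow_mul hM10, one_div, inv_mul_cancel₀ h0.ne', Real.rpow_one]
      _ ≤ (q : ℝ) ^ ε₀ := Real.rpow_le_rpow (by positivity) h2 h0.le
  have hMq2 : 2 * M₂ ^ 2 ≤ (q : ℝ) := (Nat.le_ceil _).trans (by exact_mod_cast hqM2)
  obtain ⟨_, _, _, _, hWS⟩ := hrc q hqq₁ B hB hBc
  have hb1 : (1 : ℝ) ≤ B.card := by exact_mod_cast hB.card_pos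
  have hφn : 0 < q.totient := Nat.totient_pos.mpr (by omega)
  have hφ : (0 : ℝ) < q.totient := by exact_mod_cast hφn
  have hφQ : (q.totient : ℝ) ≤ q := by exact_mod_cast Nat.totient_le q
  have hφ1 : (q : ℝ) ≤ K₁ * (q : ℝ) ^ (ε₀ / 16) * q.totient :=
    C2_phi (ε₀ / 16) (by positivity) q (by omega)
  have hSq : 1 + S ≤ X := by
    have h2 : (q : ℝ) ^ (1 / 4 : ℝ) ≤ (q : ℝ) ^ (1 : ℝ) :=
      Real.rpow_le_rpow_of_exponent_le hQ1 (by norm_num)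
    rw [Real.rpow_one] at h2
    linarith
  -- the error `E`
  set K : ℕ := ⌈4 * K₃ + 20⌉₊ + 1 with hKdef
  have hKK : 4 * K₃ + 20 ≤ (K : ℝ) := by
    rw [hKdef]
    push_cast
    have := Nat.le_ceil (4 * K₃ + 20)
    linarith
  have hXK : 0 < X ^ K := by positivity
  have hY0 : 0 < Y := lt_of_lt_of_le hXK hY
  set E : ℝ := (3 / 8 : ℝ) ^ k + 3 ^ k * Y ^ (-(1 / 2) : ℝ) with hE
  have hE0 : 0 ≤ E := by positivity
  have hE1 : E ≤ 2 * X ^ (-10 : ℝ) := by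
    have h2 := C3_err3 X X K₃ K k hX1 le_rfl hk1 hk2 hKK
    have h3 : Y ^ (-(1 / 2) : ℝ) ≤ (X ^ K) ^ (-(1 / 2) : ℝ) :=
      Real.rpow_le_rpow_of_nonpos hXK hY (by norm_num)
    have h4 := mul_le_mul_of_nonneg_left h3 (by positivity : (0 : ℝ) ≤ 3 ^ k)
    linarith
  have eX : X ^ (1 : ℝ) = X := Real.rpow_one _
  -- one row
  set G : ℝ := 2 * (B.card : ℝ) ^ (1 / 2 : ℝ) / q.totient *
    (C * ((B.card : ℝ) * q) ^ (1 - θ) * (q : ℝ) ^ (ε₀ / 4)) with hG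
  have hG0 : 0 ≤ G := by positivity
  set sq : ℝ := Real.sqrt (sB q θ B s I₀ k) with hsq
  have hsq0 : 0 ≤ sq := Real.sqrt_nonneg _
  have hsq2 : sq ^ 2 = sB q θ B s I₀ k := Real.sq_sqrt (A18_sB q θ B s I₀ k)
  have hrow : ∀ a ∈ B, ((∑ n ∈ Icc 1 (q * NN q ε₀), |cw q θ ε₀ B a n| * Rw q θ B s S Y I₀ k n)
          * (2 - θ) ^ k) ^ 2 ≤ (M₂ * X ^ (-5 : ℝ) + G * sq) ^ 2 := by
    intro a _
    have hR0 : ∀ n : ℕ, 0 ≤ Rw q θ B s S Y I₀ k n := by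
      intro n
      unfold Rw LH
      positivity
    refine pow_le_pow_left₀ ?_ ?_ 2
    · exact mul_nonneg (Finset.sum_nonneg fun n _ =>
        mul_nonneg (abs_nonneg _) (hR0 n)) (by positivity)
    · rw [Finset.sum_mul]
      have hs : ∑ n ∈ Icc 1 (q * NN q ε₀),
          |cw q θ ε₀ B a n| * Rw q θ B s S Y I₀ k n * (2 - θ) ^ k
          ≤ (60 * (1 + S) * E + 2 * (B.card : ℝ) ^ (1 / 2 : ℝ) / q.totient * sq)
            * WW q θ ε₀ B a := by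
        unfold WW
        rw [Finset.mul_sum]
        refine Finset.sum_le_sum fun n hn => ?_
        rw [Finset.mem_Icc] at hn
        have h5 := A18_Rw q θ S Y hθ hθ1 hS0 hY0.le B s I₀ k n hn.1
        calc |cw q θ ε₀ B a n| * Rw q θ B s S Y I₀ k n * (2 - θ) ^ k
            = |cw q θ ε₀ B a n| * (Rw q θ B s S Y I₀ k n * (2 - θ) ^ k) := by ring
          _ ≤ |cw q θ ε₀ B a n| * ((60 * (1 + S) * E + 2 * (B.card : ℝ) ^ (1 / 2 : ℝ) / q.totient *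
              sq) * (n : ℝ) ^ (-θ)) :=
              mul_le_mul_of_nonneg_left h5 (abs_nonneg _)
          _ = _ := by ring
      have h6 := hWS a
      have h7 : (60 * (1 + S) * E + 2 * (B.card : ℝ) ^ (1 / 2 : ℝ) / q.totient * sq)
          * WW q θ ε₀ B a ≤ (60 * (1 + S) * E + 2 * (B.card : ℝ) ^ (1 / 2 : ℝ) / q.totient * sq)
          * (C * ((B.card : ℝ) * q) ^ (1 - θ) * (q : ℝ) ^ (ε₀ / 4)) :=
        mul_le_mul_of_nonneg_left h6 (by positivity)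
      have h8 : 60 * (1 + S) * E * (C * ((B.card : ℝ) * q) ^ (1 - θ) * (q : ℝ) ^ (ε₀ / 4))
          ≤ 120 * C * X ^ (-5 : ℝ) := by
        have h9 := C3_W q B.card θ ε₀ hQ1 (by positivity) hθ hθ1 h0 h1 hBc
        have h9' : (q : ℝ) ^ 2 ≤ X ^ 2 := pow_le_pow_left₀ hQ0.le hqX 2
        have h10 : (1 + S) * E * (((B.card : ℝ) * q) ^ (1 - θ) * (q : ℝ) ^ (ε₀ / 4))
            ≤ X * (2 * X ^ (-10 : ℝ)) * X ^ 2 :=
          mul_le_mul (mul_le_mul hSq hE1 hE0 hX0.le) (h9.trans h9') (by positivity) (by positivity)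
        have h11 : X * (2 * X ^ (-10 : ℝ)) * X ^ 2 ≤ 2 * X ^ (-5 : ℝ) := by
          have h12 : X * X ^ (-10 : ℝ) * X ^ 2 = X ^ (-7 : ℝ) := by
            have e2 : X ^ 2 = X ^ (2 : ℝ) := by
              rw [← Real.rpow_natCast]
              norm_num
            calc X * X ^ (-10 : ℝ) * X ^ 2
                = X ^ (1 : ℝ) * X ^ (-10 : ℝ) * X ^ (2 : ℝ) := by rw [← e2, eX]
              _ = X ^ (-7 : ℝ) := by
                  rw [← Real.rpow_add hX0, ← Real.rpow_add hX0]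
                  norm_num
          have h13 : X ^ (-7 : ℝ) ≤ X ^ (-5 : ℝ) :=
            Real.rpow_le_rpow_of_exponent_le hX1 (by norm_num)
          calc X * (2 * X ^ (-10 : ℝ)) * X ^ 2 = 2 * (X * X ^ (-10 : ℝ) * X ^ 2) := by ring
            _ ≤ 2 * X ^ (-5 : ℝ) := by rw [h12]; linarith
        calc 60 * (1 + S) * E * (C * ((B.card : ℝ) * q) ^ (1 - θ) * (q : ℝ) ^ (ε₀ / 4))
            = 60 * C * ((1 + S) * E * (((B.card : ℝ) * q) ^ (1 - θ) * (q : ℝ) ^ (ε₀ / 4))) := by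
              ring
          _ ≤ 60 * C * (2 * X ^ (-5 : ℝ)) :=
              mul_le_mul_of_nonneg_left (h10.trans h11) (by positivity)
          _ = _ := by ring
      calc _ ≤ _ := hs.trans h7
        _ = 60 * (1 + S) * E * (C * ((B.card : ℝ) * q) ^ (1 - θ) * (q : ℝ) ^ (ε₀ / 4))
            + G * sq := by rw [hG]; ring
        _ ≤ M₂ * X ^ (-5 : ℝ) + G * sq := by rw [hM₂]; linarith
  have hbQ : (B.card : ℝ) ≤ q := by
    refine hBc.trans ?_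
    calc (q : ℝ) ^ (θ / (2 - θ) - ε₀) ≤ (q : ℝ) ^ (1 : ℝ) := by
          refine Real.rpow_le_rpow_of_exponent_le hQ1 ?_
          have : θ / (2 - θ) ≤ 1 := by
            rw [div_le_one hρ0]
            linarith
          linarith
      _ = q := Real.rpow_one _
  refine ⟨?_, ?_⟩
  · refine (Finset.sum_le_sum hrow).trans ?_
    rw [Finset.sum_const, nsmul_eq_mul]
    have hβ := A18_beta q B.card q.totient C K₁ ε₀ θ hθ1 hθ hQ1 hb1 hφ hC0 h0 hBc hφ1 hK1 hMq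
    rw [← hG] at hβ
    have h2 : (M₂ * X ^ (-5 : ℝ) + G * sq) ^ 2
        ≤ 2 * (M₂ * X ^ (-5 : ℝ)) ^ 2 + 2 * G ^ 2 * sq ^ 2 := by
      nlinarith [sq_nonneg (M₂ * X ^ (-5 : ℝ) - G * sq)]
    have h3 : (B.card : ℝ) * (2 * (M₂ * X ^ (-5 : ℝ)) ^ 2) ≤ X ^ (-6 : ℝ) := by
      have h4 : (X ^ (-5 : ℝ)) ^ 2 = X ^ (-10 : ℝ) := by
        rw [← Real.rpow_natCast, ← Real.rpow_mul hX0.le]
        norm_num
      have h5 : X * X * X ^ (-10 : ℝ) = X ^ (-8 : ℝ) := by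
        calc X * X * X ^ (-10 : ℝ)
            = X ^ (1 : ℝ) * X ^ (1 : ℝ) * X ^ (-10 : ℝ) := by rw [eX]
          _ = X ^ (-8 : ℝ) := by
              rw [← Real.rpow_add hX0, ← Real.rpow_add hX0]
              norm_num
      calc (B.card : ℝ) * (2 * (M₂ * X ^ (-5 : ℝ)) ^ 2)
          = B.card * (2 * M₂ ^ 2) * ((X ^ (-5 : ℝ)) ^ 2) := by ring
        _ ≤ X * X * ((X ^ (-5 : ℝ)) ^ 2) := by
            refine mul_le_mul_of_nonneg_right ?_ (by positivity)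
            exact mul_le_mul (hbQ.trans hqX) (hMq2.trans hqX) (by positivity) hX0.le
        _ = X ^ (-8 : ℝ) := by rw [h4, h5]
        _ ≤ X ^ (-6 : ℝ) := Real.rpow_le_rpow_of_exponent_le hX1 (by norm_num)
    have h6 : (B.card : ℝ) * (2 * G ^ 2 * sq ^ 2) ≤ (q : ℝ) ^ (-(ε₀ / 4)) * sB q θ B s I₀ k := by
      rw [hsq2]
      calc (B.card : ℝ) * (2 * G ^ 2 * sB q θ B s I₀ k)
          = 2 * B.card * G ^ 2 * sB q θ B s I₀ k := by ring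
        _ ≤ _ := mul_le_mul_of_nonneg_right hβ (A18_sB q θ B s I₀ k)
    have h7 := mul_le_mul_of_nonneg_left h2 (by positivity : (0 : ℝ) ≤ B.card)
    linarith
  · have h5 := A18_LH θ S Y hθ hθ1 hS0 hY0.le k 1 le_rfl
    rw [Nat.cast_one, Real.one_rpow, mul_one] at h5
    have h6 : LH S Y k 1 * (2 - θ) ^ k ≤ 120 * X ^ (-9 : ℝ) := by
      refine h5.trans ?_
      have h7 : (1 + S) * E ≤ X * (2 * X ^ (-10 : ℝ)) := mul_le_mul hSq hE1 hE0 hX0.le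
      have h8 : X * X ^ (-10 : ℝ) = X ^ (-9 : ℝ) := by
        calc X * X ^ (-10 : ℝ) = X ^ (1 : ℝ) * X ^ (-10 : ℝ) := by rw [eX]
          _ = X ^ (-9 : ℝ) := by
              rw [← Real.rpow_add hX0]
              norm_num
      calc 60 * (1 + S) * E = 60 * ((1 + S) * E) := by ring
        _ ≤ 60 * (X * (2 * X ^ (-10 : ℝ))) := mul_le_mul_of_nonneg_left h7 (by norm_num)
        _ = 120 * (X * X ^ (-10 : ℝ)) := by ring
        _ = _ := by rw [h8]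
    have h60 : 0 ≤ LH S Y k 1 * (2 - θ) ^ k := by
      unfold LH
      positivity
    have h7 : (LH S Y k 1 * (2 - θ) ^ k) ^ 2 ≤ (120 * X ^ (-9 : ℝ)) ^ 2 :=
      pow_le_pow_left₀ h60 h6 2
    have h4 : (X ^ (-9 : ℝ)) ^ 2 = X ^ (-18 : ℝ) := by
      rw [← Real.rpow_natCast, ← Real.rpow_mul hX0.le]
      norm_num
    have h5 : X * X * X ^ (-18 : ℝ) = X ^ (-16 : ℝ) := by
      calc X * X * X ^ (-18 : ℝ)
          = X ^ (1 : ℝ) * X ^ (1 : ℝ) * X ^ (-18 : ℝ) := by rw [eX]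
        _ = X ^ (-16 : ℝ) := by
            rw [← Real.rpow_add hX0, ← Real.rpow_add hX0]
            norm_num
    have hX14 : 14400 ≤ X := hQ14.trans hqX
    calc (q.totient : ℝ) * (LH S Y k 1 * (2 - θ) ^ k) ^ 2
        ≤ X * (120 * X ^ (-9 : ℝ)) ^ 2 :=
          mul_le_mul (hφQ.trans hqX) h7 (by positivity) hX0.le
      _ = X * 14400 * (X ^ (-9 : ℝ)) ^ 2 := by ring
      _ ≤ X * X * (X ^ (-9 : ℝ)) ^ 2 := by
          refine mul_le_mul_of_nonneg_right ?_ (by positivity)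
          exact mul_le_mul_of_nonneg_left hX14 hX0.le
      _ = X ^ (-16 : ℝ) := by rw [h4, h5]
      _ ≤ X ^ (-6 : ℝ) := Real.rpow_le_rpow_of_exponent_le hX1 (by norm_num)

end Pool.Agent.MU
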