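import Mathlib
import Pool.Agent.Lib.MP_9cfc0a_nt.Mg.G023
import Pool.Agent.Lib.MP_9cfc0a_nt.MU.U3
import Pool.Agent.Lib.MP_9cfc0a_nt.Mg.G041
import Pool.Agent.Lib.MP_9cfc0a_nt.Mg.G037
import Pool.Agent.Lib.MP_9cfc0a_nt.MW.A3
import Pool.Agent.Lib.MP_9cfc0a_nt.MW.A12
import Pool.Agent.Lib.MP_9cfc0a_nt.MW.A21
import Pool.Agent.Lib.MP_9cfc0a_nt.Mg.G033
import Pool.Agent.Lib.MP_9cfc0a_nt.Mg.G029
import Pool.Agent.Lib.MP_9cfc0a_nt.MY.A2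

set_option autoImplicit false

namespace Pool.Agent.MU

open Complex Finset MY MZ MW

/-- The Taylor coefficients of all non principal characters, from the mean square outside `B`. -/
lemma U9_char (θ β : ℝ) (hθ : 1 / 2 ≤ θ) (hθ1 : θ < 1) (hβ : β < θ / (2 - θ)) : ∃ C₂ : ℝ, 1 ≤ C₂ ∧
    ∀ (K₃ : ℝ), C₂ ≤ K₃ → ∃ (K : ℕ) (η : ℝ) (q₀ : ℕ), 1 ≤ K ∧ 0 < η ∧ η ≤ 1 / 2 ∧
    ∀ (S : ℝ), 3 ≤ S → ∀ (q : ℕ) [NeZero q], q₀ ≤ q → S + 2 ≤ (q : ℝ) ^ η →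
    ∀ X : ℝ, (q : ℝ) ≤ X →
    ∀ B : Finset (ZMod q)ˣ, B.Nonempty → (B.card : ℝ) ≤ (q : ℝ) ^ β →
    ∀ Y : ℝ, X ^ K ≤ Y → ∫ x in Set.Ioc X Y, VB q B x / x ^ (1 + 2 * θ) ≤ 2 →
    ∀ χ : DirichletCharacter ℂ q, χ ≠ 1 → ∀ s : ℂ, s.re = 2 → ‖s‖ ≤ S → ∀ k : ℕ,
      C₂ * Real.log X ≤ k → (k : ℝ) ≤ K₃ * Real.log X →
      ‖TC (logDeriv (MC.FF q χ)) s k‖ * (2 - θ) ^ k ≤ (q : ℝ) ^ (4 : ℝ) := by
  classical
  obtain ⟨ε₀, h0, h1, hβε⟩ : ∃ ε₀ : ℝ, 0 < ε₀ ∧ ε₀ ≤ 1 / 10 ∧ β ≤ θ / (2 - θ) - ε₀ := by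
    refine ⟨min ((θ / (2 - θ) - β) / 2) (1 / 10), lt_min (by linarith) (by norm_num),
      min_le_right _ _, ?_⟩
    have := min_le_left ((θ / (2 - θ) - β) / 2) (1 / 10 : ℝ)
    linarith
  obtain ⟨C₂, hC₂, hcore⟩ := energyU θ ε₀ hθ hθ1 h0 h1
  obtain ⟨Cw, qw, hCw, hrow⟩ := rowcol θ ε₀ hθ hθ1 h0 h1
  refine ⟨C₂, by linarith, fun K₃ hK₃ => ?_⟩
  obtain ⟨ν, K, q', hν0, hν4, hK, hcoreS⟩ := hcore K₃ hK₃
  obtain ⟨m, hm⟩ := exists_nat_ge (8 * Cw ^ 2 + 100)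
  refine ⟨K, ν, max (max q' qw) m, hK, hν0, by linarith, fun S hS q _ hq hSq X hX1 B hBne hB Y hY
    hint χ hχ s hs hsS k hk1 hk2 => ?_⟩
  have hqq' : q' ≤ q := ((le_max_left _ _).trans (le_max_left _ _)).trans hq
  have hqw : qw ≤ q := ((le_max_right _ _).trans (le_max_left _ _)).trans hq
  have hqm : (m : ℝ) ≤ q := by exact_mod_cast (le_max_right _ _).trans hq
  have hQM : 8 * Cw ^ 2 + 100 ≤ (q : ℝ) := hm.trans hqm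
  have hCw2 : 0 ≤ Cw ^ 2 := sq_nonneg _
  have hQ1 : (1 : ℝ) ≤ q := by linarith
  have hQ0 : (0 : ℝ) < q := by linarith
  have hS0 : 0 ≤ S := by linarith
  have hS2 : S ^ 2 ≤ (q : ℝ) := by
    have h2 : S ≤ (q : ℝ) ^ (1 / 2 : ℝ) := by
      have h3 : (q : ℝ) ^ ν ≤ (q : ℝ) ^ (1 / 2 : ℝ) :=
        Real.rpow_le_rpow_of_exponent_le hQ1 (by linarith)
      linarith
    have h4 : ((q : ℝ) ^ (1 / 2 : ℝ)) ^ 2 = q := by
      rw [← Real.rpow_natCast, ← Real.rpow_mul hQ0.le]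
      norm_num
    calc S ^ 2 ≤ ((q : ℝ) ^ (1 / 2 : ℝ)) ^ 2 := pow_le_pow_left₀ hS0 h2 2
      _ = q := h4
  have hρ0 : 0 ≤ (2 - θ) ^ k := pow_nonneg (by linarith) k
  have hB1 : (1 : ℝ) ≤ B.card := by exact_mod_cast hBne.card_pos
  have hBc : (B.card : ℝ) ≤ (q : ℝ) ^ (θ / (2 - θ) - ε₀) :=
    hB.trans (Real.rpow_le_rpow_of_exponent_le hQ1 hβε)
  have hBc1 : (B.card : ℝ) ≤ (q : ℝ) ^ (1 - ε₀) := by
    refine hBc.trans (Real.rpow_le_rpow_of_exponent_le hQ1 ?_)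
    have : θ / (2 - θ) ≤ 1 := by
      rw [div_le_one (by linarith)]
      linarith
    linarith
  have hBq : (B.card : ℝ) ≤ q := by
    refine hBc1.trans ?_
    calc (q : ℝ) ^ (1 - ε₀) ≤ (q : ℝ) ^ (1 : ℝ) :=
          Real.rpow_le_rpow_of_exponent_le hQ1 (by linarith)
      _ = q := Real.rpow_one _
  have hX1' : 1 ≤ X := hQ1.trans hX1
  have hXK : X ≤ X ^ K := le_self_pow₀ hX1' (by omega)
  have hXY : X ≤ Y := hXK.trans hY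
  obtain ⟨hW1, hW2⟩ := G4_W θ q B.card ε₀ hθ hθ1 hQ1 h0 h1 hB1 hBc1
  obtain ⟨-, -, -, -, hWW⟩ := hrow q hqw B hBne hBc
  have hWq : ∀ a, WW q θ ε₀ B a ≤ Cw * q := by
    intro a
    refine (hWW a).trans ?_
    rw [mul_assoc]
    exact mul_le_mul_of_nonneg_left hW2 (by linarith)
  have hP : ∀ k : ℕ, 60 * Real.log X ≤ k → (k : ℝ) ≤ K₃ * Real.log X →
      ∑ a ∈ B, (‖XW q θ ε₀ B X Y s k a‖ * (2 - θ) ^ k) ^ 2 ≤ (q : ℝ) ^ 5 := by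
    intro k _ _
    have h2 : ∀ a ∈ B, (‖XW q θ ε₀ B X Y s k a‖ * (2 - θ) ^ k) ^ 2 ≤ 8 * Cw ^ 2 * (q : ℝ) ^ 3 := by
      intro a _
      have h3 := XW_crude q θ ε₀ hθ hθ1 B X Y hX1' hXY s hs S hS hsS 2 (by norm_num) hint k a
      have h4 : 0 ≤ ‖XW q θ ε₀ B X Y s k a‖ * (2 - θ) ^ k :=
        mul_nonneg (norm_nonneg _) (pow_nonneg (by linarith) k)
      have h5 : ‖XW q θ ε₀ B X Y s k a‖ * (2 - θ) ^ k ≤ 2 * S * Real.sqrt 2 * (Cw * q) :=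
        h3.trans (mul_le_mul_of_nonneg_left (hWq a) (by positivity))
      calc (‖XW q θ ε₀ B X Y s k a‖ * (2 - θ) ^ k) ^ 2
          ≤ (2 * S * Real.sqrt 2 * (Cw * q)) ^ 2 := pow_le_pow_left₀ h4 h5 2
        _ = 4 * S ^ 2 * (Real.sqrt 2 ^ 2) * (Cw ^ 2 * (q : ℝ) ^ 2) := by ring
        _ = 8 * Cw ^ 2 * (q : ℝ) ^ 2 * S ^ 2 := by
            rw [Real.sq_sqrt (by norm_num)]; ring
        _ ≤ 8 * Cw ^ 2 * (q : ℝ) ^ 2 * q := mul_le_mul_of_nonneg_left hS2 (by positivity)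
        _ = 8 * Cw ^ 2 * (q : ℝ) ^ 3 := by ring
    calc ∑ a ∈ B, (‖XW q θ ε₀ B X Y s k a‖ * (2 - θ) ^ k) ^ 2
        ≤ ∑ a ∈ B, 8 * Cw ^ 2 * (q : ℝ) ^ 3 := sum_le_sum h2
      _ = B.card * (8 * Cw ^ 2 * (q : ℝ) ^ 3) := by rw [sum_const, nsmul_eq_mul]
      _ ≤ q * (q * (q : ℝ) ^ 3) := by
          refine mul_le_mul hBq ?_ (by positivity) hQ0.le
          exact mul_le_mul_of_nonneg_right (by linarith) (by positivity)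
      _ = (q : ℝ) ^ 5 := by ring
  have hE := hcoreS q hqq' S hS hSq X hX1 B hBne hBc Y hY 2 (by norm_num) hint s hs hsS
    ((q : ℝ) ^ 5) (by positivity) hP k hk1 hk2
  have hE6 : uA q θ s k ≤ (q : ℝ) ^ 6 := by
    have h2 : X ^ (-4 : ℝ) ≤ 1 := Real.rpow_le_one_of_one_le_of_nonpos hX1' (by norm_num)
    have h3 : (q : ℝ) ≤ (q : ℝ) ^ 5 := le_self_pow₀ hQ1 (by norm_num)
    have h4 : 24 * S ^ 2 * 2 ≤ 48 * (q : ℝ) ^ 5 := by nlinarith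
    have h5 : (1 : ℝ) ≤ (q : ℝ) ^ 5 := hQ1.trans h3
    have h6 : 57 * (q : ℝ) ^ 5 ≤ q * (q : ℝ) ^ 5 :=
      mul_le_mul_of_nonneg_right (by linarith) (by positivity)
    have h7 : (q : ℝ) * (q : ℝ) ^ 5 = (q : ℝ) ^ 6 := by ring
    linarith
  have hφq : (q.totient : ℝ) ≤ q := by exact_mod_cast Nat.totient_le q
  have hsum : (∑ a : (ZMod q)ˣ, ‖Dk q s k a‖ * (2 - θ) ^ k) ^ 2 ≤ ((q : ℝ) ^ 4) ^ 2 := by
    calc (∑ a : (ZMod q)ˣ, ‖Dk q s k a‖ * (2 - θ) ^ k) ^ 2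
        ≤ (univ : Finset (ZMod q)ˣ).card * ∑ a : (ZMod q)ˣ, (‖Dk q s k a‖ * (2 - θ) ^ k) ^ 2 :=
          sq_sum_le_card_mul_sum_sq
      _ = q.totient * uA q θ s k := by
          rw [card_univ, ZMod.card_units_eq_totient]; rfl
      _ ≤ q * (q : ℝ) ^ 6 := by
          refine mul_le_mul hφq hE6 ?_ hQ0.le
          unfold uA
          exact sum_nonneg fun a _ => sq_nonneg _
      _ ≤ ((q : ℝ) ^ 4) ^ 2 := by
          have h2 : ((q : ℝ) ^ 4) ^ 2 = q * (q * (q : ℝ) ^ 6) := by ring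
          rw [h2]
          refine mul_le_mul_of_nonneg_left ?_ hQ0.le
          exact le_mul_of_one_le_left (by positivity) hQ1
  have hsum1 : ∑ a : (ZMod q)ˣ, ‖Dk q s k a‖ * (2 - θ) ^ k ≤ (q : ℝ) ^ 4 :=
    abs_le_of_sq_le_sq' hsum (by positivity) |>.2
  have h2 := coeff_le q s k χ hχ
  rw [MC.FF_of_ne q χ hχ, G4_TC_neg]
  have hq4 : (q : ℝ) ^ (4 : ℝ) = (q : ℝ) ^ 4 := by exact_mod_cast Real.rpow_natCast (q : ℝ) 4
  rw [hq4]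
  calc ‖TC (fun z => -logDeriv χ.LFunction z) s k‖ * (2 - θ) ^ k
      ≤ (∑ a : (ZMod q)ˣ, ‖Dk q s k a‖) * (2 - θ) ^ k := mul_le_mul_of_nonneg_right h2 hρ0
    _ = ∑ a : (ZMod q)ˣ, ‖Dk q s k a‖ * (2 - θ) ^ k := by rw [sum_mul]
    _ ≤ _ := hsum1

/-- U9. Bootstrap, uniformly in `X ≥ q` (as `MW.A3`). -/
theorem zf_boxU (θ β δ : ℝ) (hθ : 1 / 2 ≤ θ) (hθ1 : θ < 1) (hβ : β < θ / (2 - θ)) (hδ : 0 < δ) :
    ∃ (ν : ℝ) (K₀ q₀ : ℕ), 0 < ν ∧ ν ≤ 1 / 4 ∧ 1 ≤ K₀ ∧ ∀ (q : ℕ) [NeZero q], q₀ ≤ q →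
    ∀ X : ℝ, (q : ℝ) ≤ X →
    ∀ B : Finset (ZMod q)ˣ, B.Nonempty → (B.card : ℝ) ≤ (q : ℝ) ^ β →
    ∀ Y : ℝ, X ^ K₀ ≤ Y → ∫ x in Set.Ioc X Y, VB q B x / x ^ (1 + 2 * θ) ≤ 2 →
    ZFB q (θ - 1 / 2 + δ) ((q : ℝ) ^ ν) := by
  classical
  rcases le_or_gt 1 (θ + δ) with hbig | hsmall
  · refine ⟨1 / 4, 1, 0, by norm_num, le_rfl, le_rfl, fun q _ _ X _ B _ _ Y _ _ χ hχ s hs1 _ => ?_⟩
    exact DirichletCharacter.LFunction_ne_zero_of_one_le_re χ (.inl hχ) (by linarith)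
  obtain ⟨C₂, hC₂, hall⟩ := U9_char θ β hθ hθ1 hβ
  obtain ⟨r, hr⟩ : ∃ r : ℝ, r = 2 - θ - δ := ⟨_, rfl⟩
  have hr1 : 1 < r := by linarith
  have hr0 : 0 < r := by linarith
  obtain ⟨ρ, hρ⟩ : ∃ ρ : ℝ, ρ = 2 - θ := ⟨_, rfl⟩
  have hρr : r < ρ := by linarith
  have hρ0 : 0 < ρ := by linarith
  have hρ2 : ρ ≤ 3 / 2 := by linarith
  obtain ⟨η, hη⟩ : ∃ η : ℝ, η = Real.log (ρ / r) / 2 := ⟨_, rfl⟩
  have hη0 : 0 < η := by
    rw [hη]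
    have := Real.log_pos (show 1 < ρ / r by rw [one_lt_div hr0]; exact hρr)
    positivity
  have hη2 : 2 * η = Real.log (ρ / r) := by rw [hη]; ring
  obtain ⟨L, m₀, Z, hL, hZ, hwin⟩ := window_gen η hη0
  have hLR : (1 : ℝ) ≤ L := by exact_mod_cast hL
  obtain ⟨K', hK'⟩ : ∃ K' : ℝ, K' = max ((0 + 8) / η) (C₂ + 2 * Z + 1) := ⟨_, rfl⟩
  have hK'1 : (0 : ℝ) + 8 ≤ η * K' := by
    have h3 : ((0 : ℝ) + 8) / η ≤ K' := by rw [hK']; exact le_max_left _ _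
    rw [div_le_iff₀ hη0] at h3; linarith
  have hK'2 : C₂ + 2 * Z + 1 ≤ K' := by rw [hK']; exact le_max_right _ _
  have hK'0 : 1 ≤ K' := by linarith
  have hK₃ : C₂ ≤ L * (K' + 1) := by
    have h3 : K' + 1 ≤ L * (K' + 1) := le_mul_of_one_le_left (by linarith) hLR
    linarith
  obtain ⟨K, η₁, q₀, hK1, hη₁0, hη₁2, hq₀'⟩ := hall (L * (K' + 1)) hK₃
  obtain ⟨ν, hν⟩ : ∃ ν : ℝ, ν = min (1 / 4) (η₁ / 2) := ⟨_, rfl⟩
  have hν0 : 0 < ν := by rw [hν]; exact lt_min (by norm_num) (by linarith)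
  have hν4 : ν ≤ 1 / 4 := by rw [hν]; exact min_le_left _ _
  have hνη : ν ≤ η₁ / 2 := by rw [hν]; exact min_le_right _ _
  obtain ⟨X₂, hX₂⟩ := Filter.eventually_atTop.mp
    ((tendsto_rpow_atTop (show 0 < η₁ / 2 by linarith)).eventually_ge_atTop (8 : ℝ))
  obtain ⟨Q, hQ⟩ := exists_nat_ge ((q₀ : ℝ) + |X₂| + Real.exp (m₀ + 1) + 1681)
  obtain ⟨X₁, hX₁⟩ := Filter.eventually_atTop.mp
    (Real.isLittleO_log_id_atTop.bound (show (0 : ℝ) < 1 / (4 * Z) by positivity))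
  obtain ⟨Q₂, hQ₂⟩ := exists_nat_ge |X₁|
  refine ⟨ν, K, max Q Q₂, hν0, hν4, hK1, fun q _ hqQ X hX1 B hBne hB Y hY hint χ hχ ρ₀ h1 hT'
    hzero => ?_⟩
  have h2 : ρ₀.re < 1 := by
    by_contra hge
    push Not at hge
    exact DirichletCharacter.LFunction_ne_zero_of_one_le_re χ (.inl hχ) hge hzero
  have hqQR : (Q : ℝ) ≤ q := by exact_mod_cast (le_max_left _ _).trans hqQ
  have hqQ₂ : (Q₂ : ℝ) ≤ q := by exact_mod_cast (le_max_right _ _).trans hqQ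
  have hqX : X₁ ≤ (q : ℝ) := (le_abs_self X₁).trans (hQ₂.trans hqQ₂)
  have hq₀0 : (0 : ℝ) ≤ q₀ := Nat.cast_nonneg _
  have he1 := Real.exp_pos ((m₀ : ℝ) + 1)
  have hX20 := abs_nonneg X₂
  have hq1681 : (1681 : ℝ) ≤ q := by linarith
  have hq1 : (1 : ℝ) < q := by linarith
  have hq0 : (0 : ℝ) < q := by linarith
  have hqq₀ : q₀ ≤ q := by
    have : (q₀ : ℝ) ≤ q := by linarith
    exact_mod_cast this
  have hqX2 : X₂ ≤ (q : ℝ) := (le_abs_self X₂).trans (by linarith)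
  have h8 : (8 : ℝ) ≤ (q : ℝ) ^ (η₁ / 2) := hX₂ q hqX2
  obtain ⟨T, hTdef⟩ : ∃ T : ℝ, T = |ρ₀.im| := ⟨_, rfl⟩
  have hT0 : 0 ≤ T := by rw [hTdef]; exact abs_nonneg _
  have hTq : T ≤ (q : ℝ) ^ (η₁ / 2) := by
    rw [hTdef]
    exact hT'.trans (Real.rpow_le_rpow_of_exponent_le (by linarith) hνη)
  have hTS : (T + 5) + 2 ≤ (q : ℝ) ^ η₁ := by
    have h3 : (q : ℝ) ^ η₁ = (q : ℝ) ^ (η₁ / 2) * (q : ℝ) ^ (η₁ / 2) := by
      rw [← Real.rpow_add hq0]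
      congr 1
      ring
    rw [h3]
    have h4 : 8 * (q : ℝ) ^ (η₁ / 2) ≤ (q : ℝ) ^ (η₁ / 2) * (q : ℝ) ^ (η₁ / 2) :=
      mul_le_mul_of_nonneg_right h8 (by linarith)
    linarith
  obtain ⟨r₂, hr₂⟩ : ∃ r₂ : ℝ, r₂ = (q : ℝ) ^ (1 / 2 : ℝ) := ⟨_, rfl⟩
  have hr₂0 : 0 ≤ r₂ := by rw [hr₂]; positivity
  have hr₂2 : r₂ * r₂ = q := by
    rw [hr₂, ← Real.rpow_add hq0]
    norm_num
  have hTr : T + 7 ≤ r₂ := by
    have h3 : (q : ℝ) ^ η₁ ≤ r₂ := by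
      rw [hr₂]
      exact Real.rpow_le_rpow_of_exponent_le hq1.le hη₁2
    linarith
  have hr₂41 : 41 ≤ r₂ := by
    have h3 : (41 : ℝ) ^ 2 ≤ r₂ ^ 2 := by
      rw [pow_two r₂, hr₂2]
      linarith
    exact (pow_le_pow_iff_left₀ (by norm_num) hr₂0 two_ne_zero).mp h3
  obtain ⟨l, hl⟩ : ∃ l : ℝ, l = Real.log q := ⟨_, rfl⟩
  have hlm : (m₀ : ℝ) + 1 ≤ l := by
    rw [hl, Real.le_log_iff_exp_le hq0]
    linarith
  have hm₀0 : (0 : ℝ) ≤ m₀ := Nat.cast_nonneg _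
  have hl1 : 1 ≤ l := by linarith
  have hlsmall : 4 * Z * l ≤ q := by
    have h3 := hX₁ q hqX
    rw [← hl, Real.norm_of_nonneg (by linarith), id, Real.norm_of_nonneg hq0.le] at h3
    rw [one_div, inv_mul_eq_div, le_div_iff₀ (by positivity)] at h3
    linarith
  obtain ⟨lX, hlX⟩ : ∃ lX : ℝ, lX = Real.log X := ⟨_, rfl⟩
  have hllX : l ≤ lX := by
    rw [hl, hlX]
    exact Real.log_le_log hq0 hX1
  have hlX1 : 1 ≤ lX := by linarith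
  obtain ⟨m, hm⟩ : ∃ m : ℕ, m = ⌈K' * lX⌉₊ := ⟨_, rfl⟩
  have hKl0 : 0 ≤ K' * lX := by positivity
  have hm1 : K' * lX ≤ m := by rw [hm]; exact Nat.le_ceil _
  have hm2 : (m : ℝ) ≤ K' * lX + 1 := by rw [hm]; exact (Nat.ceil_lt_add_one hKl0).le
  have hlK : lX ≤ K' * lX := le_mul_of_one_le_left (by linarith) hK'0
  have hmm₀ : m₀ ≤ m := by
    have h3 : (m₀ : ℝ) ≤ m := by linarith
    exact_mod_cast h3
  have hKlow : (C₂ + 2 * Z + 1) * lX ≤ K' * lX := mul_le_mul_of_nonneg_right hK'2 (by linarith)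
  have hKexp : (C₂ + 2 * Z + 1) * lX = C₂ * lX + 2 * (Z * lX) + lX := by ring
  have hZlX : 0 ≤ Z * lX := by positivity
  -- the range of `k`
  have hrange : ∀ k : ℕ, m ≤ k + 1 → k ≤ L * m →
      C₂ * Real.log X ≤ k ∧ (k : ℝ) ≤ L * (K' + 1) * Real.log X := by
    intro k hk1 hk2
    have hk1R : (m : ℝ) ≤ k + 1 := by exact_mod_cast hk1
    have hk2R : (k : ℝ) ≤ L * m := by exact_mod_cast hk2
    rw [← hlX]
    constructor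
    · linarith
    · have h3 : (L : ℝ) * m ≤ L * (K' * lX + 1) := by gcongr
      have h4 : K' * lX + 1 ≤ (K' + 1) * lX := by
        have : (K' + 1) * lX = K' * lX + lX := by ring
        linarith
      calc (k : ℝ) ≤ L * m := hk2R
        _ ≤ L * (K' * lX + 1) := h3
        _ ≤ L * ((K' + 1) * lX) := by gcongr
        _ = _ := by ring
  -- the point
  obtain ⟨s, hs⟩ : ∃ s : ℂ, s = ⟨2, ρ₀.im⟩ := ⟨_, rfl⟩
  have hsre : s.re = 2 := by rw [hs]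
  have hsim : s.im = ρ₀.im := by rw [hs]
  have hsn2 : ‖s‖ ≤ T + 2 := by
    calc ‖s‖ ≤ |s.re| + |s.im| := Complex.norm_le_abs_re_add_abs_im s
      _ ≤ T + 2 := by
          rw [hsre, hsim, ← hTdef]
          have : (|(2 : ℝ)|) = 2 := abs_of_pos (by norm_num)
          rw [this]
          linarith
  have hsn : ‖s‖ ≤ T + 5 := by linarith
  have hdist : ‖s - ρ₀‖ ≤ r := by
    have h3 : s - ρ₀ = ((2 - ρ₀.re : ℝ) : ℂ) := by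
      apply Complex.ext
      · rw [Complex.sub_re, hsre, Complex.ofReal_re]
      · rw [Complex.sub_im, hsim, Complex.ofReal_im]; simp
    rw [h3, Complex.norm_real, Real.norm_of_nonneg (by linarith)]
    linarith
  have hchar : ∀ k : ℕ, m ≤ k + 1 → k ≤ L * m →
      ‖TC (logDeriv (MC.FF q χ)) s k‖ ≤ (q : ℝ) ^ ((0 : ℝ) + 4) * (1 / ρ) ^ k := by
    intro k hk1 hk2
    obtain ⟨hka, hkb⟩ := hrange k hk1 hk2
    have h3 := hq₀' (T + 5) (by linarith) q hqq₀ hTS X hX1 B hBne hB Y hY hint χ hχ s hsre hsn k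
      hka hkb
    rw [← hρ] at h3
    rw [one_div, inv_pow, ← div_eq_mul_inv, le_div_iff₀ (by positivity), zero_add]
    exact h3
  have h15 : ∀ k : ℕ, 0 ≤ 15 * Real.log q * (10 / 19 : ℝ) ^ k := fun k => by
    rw [← hl]; positivity
  have hexp2 : Real.exp (2 * l) = (q : ℝ) ^ 2 := by
    rw [hl, mul_comm, Real.exp_mul, Real.exp_log hq0]
    exact_mod_cast Real.rpow_natCast (q : ℝ) 2
  have hexpn : Real.exp (-(2 * l)) ≤ 1 / 3 := by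
    rw [Real.exp_neg, hexp2, inv_le_comm₀ (by positivity) (by norm_num)]
    calc (1 / 3 : ℝ)⁻¹ = 3 := by norm_num
      _ ≤ 40 * 40 := by norm_num
      _ ≤ (q : ℝ) * q := by gcongr <;> linarith
      _ = (q : ℝ) ^ 2 := by ring
  have hmZ : Z * (2 * l) + 1 ≤ m := by
    have h3 : Z * l ≤ Z * lX := by gcongr
    have h4 : 0 ≤ C₂ * lX := by positivity
    linarith
  have hb : ∀ z ∈ Metric.closedBall s (39 / 20), ‖MC.FF q χ z‖ ≤ Real.exp (2 * l) := by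
    intro z hz
    rw [Metric.mem_closedBall, dist_eq_norm] at hz
    have hre := Complex.abs_re_le_norm (z - s)
    rw [Complex.sub_re, hsre, abs_le] at hre
    rw [MC.FF_of_ne q χ hχ, hexp2]
    have h3 := EM.L_growth q χ hχ z (by linarith)
    have h4 : ‖z‖ ≤ r₂ := by
      have h5 : ‖z‖ ≤ ‖z - s‖ + ‖s‖ := by
        calc ‖z‖ = ‖(z - s) + s‖ := by ring_nf
          _ ≤ _ := norm_add_le _ _
      linarith
    calc ‖χ.LFunction z‖ ≤ 20 * (2 * q + 1) * ‖z‖ := h3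
      _ ≤ 20 * (2 * q + 1) * r₂ := by gcongr
      _ ≤ 20 * (41 / 20 * q) * r₂ := by gcongr; linarith
      _ = 41 * q * r₂ := by ring
      _ ≤ r₂ * q * r₂ := by gcongr
      _ = q * (r₂ * r₂) := by ring
      _ = (q : ℝ) ^ 2 := by rw [hr₂2]; ring
  have hc : Real.exp (-(2 * l)) ≤ ‖MC.FF q χ s‖ := by
    rw [MC.FF_of_ne q χ hχ]
    exact hexpn.trans (MC.LFunction_lower q χ s hsre)
  have hz1 : MC.FF q χ ρ₀ = 0 := by rw [MC.FF_of_ne q χ hχ, hzero]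
  obtain ⟨k, hk1, hk2, hk3⟩ := hwin (MC.FF q χ) (MC.FF_differentiable q χ) s (2 * l)
    (by linarith) hb hc ρ₀ hz1 r hdist (by linarith) m hmm₀ hmZ
  have h5 := hchar k hk1 hk2
  have hm1' : K' * Real.log q ≤ m := by
    rw [← hl]
    have : K' * l ≤ K' * lX := by gcongr
    linarith
  refine G5_contra (le_refl (0 : ℝ)) hq1 hr0 hρr hρ2 hη0 hη2 hK'1 hm1' hk1
    (by positivity) ?_ (h5.trans (by linarith [h15 k])) hk3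
  have h6 : 16 + Z * (2 * l) ≤ q := by linarith
  exact h6

end Pool.Agent.MU
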