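import Mathlib
import Pool.Agent.Lib.MP_9cfc0a_nt.Mg.G023
import Pool.Agent.Lib.MP_9cfc0a_nt.Mg.G042
import Pool.Agent.Lib.MP_9cfc0a_nt.Mg.G037
import Pool.Agent.Lib.MP_9cfc0a_nt.Mg.G046
import Pool.Agent.Lib.MP_9cfc0a_nt.Mg.G047

set_option autoImplicit false

namespace Pool.Agent.MU

open Complex Finset MY MZ MW

/-- U14. All zeros to the right of `θ`, with multiplicity and weighted by `X ^ (2 (Re ρ - θ))`. -/
theorem zeros_weightedU (θ β ε : ℝ) (hθ : 1 / 2 ≤ θ) (hθ1 : θ < 1) (hβ : β < θ / (2 - θ))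
    (hε : 0 < ε) :
    ∃ (ν : ℝ) (K q₀ : ℕ), 0 < ν ∧ 1 ≤ K ∧ ∀ (q : ℕ) [NeZero q], q₀ ≤ q →
    ∀ X : ℝ, (q : ℝ) ≤ X →
    ∀ B : Finset (ZMod q)ˣ, (B.card : ℝ) ≤ (q : ℝ) ^ β →
    ∑ χ ∈ nt q, ∑ ρ ∈ TS.Zf χ θ ((q : ℝ) ^ ν), TS.mu χ ρ * X ^ (2 * (ρ.re - θ))
      ≤ q.totient * X ^ ε * ∫ x in Set.Ioc X (X ^ K), VB q B x / x ^ (1 + 2 * θ) := by
  classical
  obtain ⟨δ, hδ⟩ : ∃ δ : ℝ, δ = ε / 8 := ⟨_, rfl⟩
  have hδ0 : 0 < δ := by rw [hδ]; positivity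
  obtain ⟨N, hN⟩ := exists_nat_ge (1 / δ)
  obtain ⟨C, q₁, hC, hbox⟩ := A25_box
  have hline : ∀ i : ℕ, ∃ (ν : ℝ) (K q₀ : ℕ), 0 < ν ∧ (θ + i * δ < 1 → ∀ (q : ℕ) [NeZero q],
      q₀ ≤ q → ∀ X : ℝ, (q : ℝ) ≤ X →
      ∀ B : Finset (ZMod q)ˣ, (B.card : ℝ) ≤ (q : ℝ) ^ β →
      (NZ q (θ + i * δ) ((q : ℝ) ^ ν) : ℝ) ≤ q.totient * X ^ (ε / 4) *
        ∫ x in Set.Ioc X (X ^ K), VB q B x / x ^ (1 + 2 * (θ + i * δ))) := by
    intro i
    have hi : 0 ≤ (i : ℝ) * δ := by positivity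
    by_cases h : θ + i * δ < 1
    · have hb : β < (θ + i * δ) / (2 - (θ + i * δ)) := by
        refine hβ.trans_le ?_
        rw [div_le_div_iff₀ (by linarith) (by linarith)]
        nlinarith
      obtain ⟨ν, K, q₀, h1, -, h2⟩ := zeros_offU (θ + i * δ) β (ε / 4) (by linarith) h hb
        (by linarith)
      exact ⟨ν, K, q₀, h1, fun _ => h2⟩
    · exact ⟨1, 1, 1, one_pos, fun h' => absurd h' h⟩
  choose νi Ki qi hνi hmain using hline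
  obtain ⟨ν₀, hν₀⟩ : ∃ ν₀ : ℝ, 0 < ν₀ ∧ ∀ i ∈ range (N + 1), ν₀ ≤ νi i := by
    have hne : ((range (N + 1)).image νi).Nonempty := by simp
    refine ⟨((range (N + 1)).image νi).min' hne, ?_, fun i hi => ?_⟩
    · obtain ⟨i, -, hi⟩ := Finset.mem_image.mp (Finset.min'_mem _ hne)
      rw [← hi]
      exact hνi i
    · exact Finset.min'_le _ _ (Finset.mem_image_of_mem _ hi)
  obtain ⟨ν, hν⟩ : ∃ ν : ℝ, ν = min ν₀ (min (ε / 8) 1) := ⟨_, rfl⟩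
  have hνpos : 0 < ν := by
    rw [hν]; exact lt_min hν₀.1 (lt_min (by linarith) one_pos)
  have hν1 : ν ≤ ν₀ := by rw [hν]; exact min_le_left _ _
  have hν2 : ν ≤ ε / 8 := by rw [hν]; exact (min_le_right _ _).trans (min_le_left _ _)
  have hν3 : ν ≤ 1 := by rw [hν]; exact (min_le_right _ _).trans (min_le_right _ _)
  obtain ⟨K, hK⟩ : ∃ K : ℕ, K = (range (N + 1)).sup Ki + 1 := ⟨_, rfl⟩
  obtain ⟨q₂, hq₂⟩ : ∃ q₂ : ℕ, q₂ = (range (N + 1)).sup qi := ⟨_, rfl⟩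
  have hev : ∀ᶠ q : ℕ in Filter.atTop,
      (4 * ((N : ℝ) + 1) * C) * Real.log (q : ℝ) < (q : ℝ) ^ (ε / 4) := by
    have hε4 : 0 < ε / 4 := by linarith
    have h1 : (fun x : ℝ => (4 * ((N : ℝ) + 1) * C) * Real.log x) =o[Filter.atTop]
        fun x : ℝ => x ^ (ε / 4) := (isLittleO_log_rpow_atTop hε4).const_mul_left _
    have h2 := h1.bound (show (0 : ℝ) < 1 / 2 by norm_num)
    have h3 : ∀ᶠ x : ℝ in Filter.atTop,
        (4 * ((N : ℝ) + 1) * C) * Real.log x < x ^ (ε / 4) := by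
      filter_upwards [h2, Filter.eventually_gt_atTop 0] with x hx hx0
      have h4 : 0 < x ^ (ε / 4) := Real.rpow_pos_of_pos hx0 _
      rw [Real.norm_eq_abs, Real.norm_eq_abs, abs_of_pos h4] at hx
      exact lt_of_le_of_lt ((le_abs_self _).trans hx) (by linarith)
    exact tendsto_natCast_atTop_atTop.eventually h3
  obtain ⟨q₃, hq₃⟩ := Filter.eventually_atTop.mp hev
  refine ⟨ν, K, q₁ + q₂ + q₃ + 1, hνpos, by omega, fun q _ hq X hX1 B hB => ?_⟩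
  have hq1 : (1 : ℝ) ≤ q := by exact_mod_cast (by omega : 1 ≤ q)
  have hq0 : (0 : ℝ) < q := by linarith
  have hX : 1 ≤ X := hq1.trans hX1
  have hX0 : 0 < X := by linarith
  obtain ⟨T, hT⟩ : ∃ T : ℝ, T = (q : ℝ) ^ ν := ⟨_, rfl⟩
  have hT1 : 1 ≤ T := by rw [hT]; exact Real.one_le_rpow hq1 hνpos.le
  have hTq : T ≤ q := by
    rw [hT]
    calc (q : ℝ) ^ ν ≤ (q : ℝ) ^ (1 : ℝ) := Real.rpow_le_rpow_of_exponent_le hq1 hν3
      _ = q := Real.rpow_one _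
  obtain ⟨I, hI⟩ : ∃ I : ℝ, I = ∫ x in Set.Ioc X (X ^ K), VB q B x / x ^ (1 + 2 * θ) := ⟨_, rfl⟩
  have hI0 : 0 ≤ I := by
    rw [hI]
    refine MeasureTheory.setIntegral_nonneg measurableSet_Ioc fun x hx => ?_
    have hx0 : 0 < x := hX0.trans hx.1
    exact div_nonneg (A26_VB_nonneg q B x) (Real.rpow_nonneg hx0.le _)
  rw [← hI, ← hT]
  obtain ⟨D, hD⟩ : ∃ D : ℝ, D = (2 * T + 2) * (C * Real.log q) := ⟨_, rfl⟩
  have hlog : 0 ≤ Real.log q := Real.log_nonneg hq1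
  have hD0 : 0 ≤ D := by rw [hD]; positivity
  -- each line
  have hrow : ∀ i ∈ range (N + 1), X ^ (2 * ((i : ℝ) * δ) + 2 * δ) *
      ∑ χ ∈ nt q, ∑ ρ ∈ TS.Zf χ (θ + i * δ) T, TS.mu χ ρ
      ≤ X ^ (2 * δ) * (D * (q.totient * X ^ (ε / 4) * I)) := by
    intro i hi
    have hi0 : 0 ≤ (i : ℝ) * δ := by positivity
    by_cases h : θ + i * δ < 1
    · have h1 := A25_count q (θ + i * δ) T D hD0 fun χ => by
        rw [hD]; exact hbox q (by omega) χ _ T (by linarith) (by linarith) hTq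
      have h2 : qi i ≤ q := by
        have : qi i ≤ q₂ := by rw [hq₂]; exact Finset.le_sup hi
        omega
      have h3 := hmain i h q h2 X hX1 B hB
      have h4 : NZ q (θ + i * δ) T ≤ NZ q (θ + i * δ) ((q : ℝ) ^ νi i) := by
        unfold NZ
        refine Finset.card_le_card fun χ hχ => ?_
        rw [Finset.mem_filter] at hχ ⊢
        obtain ⟨h5, s, h6, h7, h8, h9⟩ := hχ
        refine ⟨h5, s, h6, h7, h8.trans ?_, h9⟩
        rw [hT]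
        exact Real.rpow_le_rpow_of_exponent_le hq1 (hν1.trans (hν₀.2 i hi))
      have h5 : (NZ q (θ + i * δ) T : ℝ) ≤ q.totient * X ^ (ε / 4) *
          ∫ x in Set.Ioc X (X ^ Ki i), VB q B x / x ^ (1 + 2 * (θ + i * δ)) :=
        le_trans (by exact_mod_cast h4) h3
      have h6 : Ki i ≤ K := by
        have : Ki i ≤ (range (N + 1)).sup Ki := Finset.le_sup hi
        omega
      have h7 := A26_line q B θ ((i : ℝ) * δ) hθ hi0 X hX (Ki i) K h6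
      rw [← hI] at h7
      have h8 : X ^ (2 * ((i : ℝ) * δ) + 2 * δ) = X ^ (2 * δ) * X ^ (2 * ((i : ℝ) * δ)) := by
        rw [← Real.rpow_add hX0]
        congr 1
        ring
      rw [h8]
      have h9 : 0 < X ^ (2 * ((i : ℝ) * δ)) := Real.rpow_pos_of_pos hX0 _
      have h10 : 0 < X ^ (2 * δ) := Real.rpow_pos_of_pos hX0 _
      have h11 : 0 ≤ (q.totient : ℝ) * X ^ (ε / 4) := by positivity
      calc X ^ (2 * δ) * X ^ (2 * ((i : ℝ) * δ)) *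
            ∑ χ ∈ nt q, ∑ ρ ∈ TS.Zf χ (θ + i * δ) T, TS.mu χ ρ
          ≤ X ^ (2 * δ) * X ^ (2 * ((i : ℝ) * δ)) * (D * NZ q (θ + i * δ) T) := by gcongr
        _ ≤ X ^ (2 * δ) * X ^ (2 * ((i : ℝ) * δ)) * (D * (q.totient * X ^ (ε / 4) *
            ∫ x in Set.Ioc X (X ^ Ki i), VB q B x / x ^ (1 + 2 * (θ + i * δ)))) := by gcongr
        _ = X ^ (2 * δ) * (D * (q.totient * X ^ (ε / 4) * (X ^ (2 * ((i : ℝ) * δ)) *
            ∫ x in Set.Ioc X (X ^ Ki i), VB q B x / x ^ (1 + 2 * (θ + i * δ))))) := by ring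
        _ ≤ X ^ (2 * δ) * (D * (q.totient * X ^ (ε / 4) * I)) := by gcongr
    · have h1 : ∑ χ ∈ nt q, ∑ ρ ∈ TS.Zf χ (θ + i * δ) T, TS.mu χ ρ = 0 := by
        refine Finset.sum_eq_zero fun χ _ => Finset.sum_eq_zero fun ρ hρ => ?_
        rw [TS.mem_Zf] at hρ
        have := TS.Zf_re_lt χ ρ hρ.1
        exact absurd (hρ.2.1.trans_lt this) h
      rw [h1, mul_zero]
      positivity
  -- the numbers
  have hXδ : X ^ (2 * δ) = X ^ (ε / 4) := by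
    congr 1
    rw [hδ]
    ring
  have hqX : (q : ℝ) ^ (ε / 4) ≤ X ^ (ε / 4) := Real.rpow_le_rpow hq0.le hX1 (by linarith)
  have hDq : ((N : ℝ) + 1) * D ≤ X ^ (ε / 4) * X ^ (ε / 4) := by
    refine le_trans ?_ (mul_le_mul hqX hqX (by positivity) (by positivity))
    have h1 : T ≤ (q : ℝ) ^ (ε / 4) := by
      rw [hT]
      exact Real.rpow_le_rpow_of_exponent_le hq1 (by linarith)
    have h2 := (hq₃ q (by omega)).le
    have h3 : 0 ≤ (q : ℝ) ^ (ε / 4) := by positivity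
    calc ((N : ℝ) + 1) * D = (2 * T + 2) * (((N : ℝ) + 1) * C * Real.log q) := by rw [hD]; ring
      _ ≤ (4 * T) * (((N : ℝ) + 1) * C * Real.log q) := by
          refine mul_le_mul_of_nonneg_right (by linarith) (by positivity)
      _ = T * ((4 * ((N : ℝ) + 1) * C) * Real.log q) := by ring
      _ ≤ (q : ℝ) ^ (ε / 4) * (q : ℝ) ^ (ε / 4) := by gcongr
  calc ∑ χ ∈ nt q, ∑ ρ ∈ TS.Zf χ θ T, TS.mu χ ρ * X ^ (2 * (ρ.re - θ))
      ≤ ∑ χ ∈ nt q, ∑ i ∈ Finset.range (N + 1), X ^ (2 * (i * δ) + 2 * δ) *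
          ∑ ρ ∈ TS.Zf χ (θ + i * δ) T, TS.mu χ ρ :=
        Finset.sum_le_sum fun χ _ => A25_split χ hX hθ hδ0 hN
    _ = ∑ i ∈ Finset.range (N + 1), X ^ (2 * (i * δ) + 2 * δ) *
          ∑ χ ∈ nt q, ∑ ρ ∈ TS.Zf χ (θ + i * δ) T, TS.mu χ ρ := by
        rw [Finset.sum_comm]
        refine Finset.sum_congr rfl fun i _ => ?_
        rw [Finset.mul_sum]
    _ ≤ ∑ _i ∈ Finset.range (N + 1), X ^ (2 * δ) * (D * (q.totient * X ^ (ε / 4) * I)) :=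
        Finset.sum_le_sum hrow
    _ = X ^ (2 * δ) * (((N : ℝ) + 1) * D) * (q.totient * X ^ (ε / 4) * I) := by
        rw [Finset.sum_const, card_range, nsmul_eq_mul]
        push_cast
        ring
    _ ≤ X ^ (ε / 4) * (X ^ (ε / 4) * X ^ (ε / 4)) *
          (q.totient * X ^ (ε / 4) * I) := by rw [hXδ]; gcongr
    _ = q.totient * (X ^ (ε / 4) * X ^ (ε / 4) * X ^ (ε / 4) *
          X ^ (ε / 4)) * I := by ring
    _ = q.totient * X ^ ε * I := by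
        rw [← Real.rpow_add hX0, ← Real.rpow_add hX0, ← Real.rpow_add hX0]
        congr 3
        ring

/-- U14b. The same for integers `a` and an arbitrary centre `m(x)`. -/
theorem zeros_weightedU_nat (θ β ε : ℝ) (hθ : 1 / 2 ≤ θ) (hθ1 : θ < 1) (hβ : β < θ / (2 - θ))
    (hε : 0 < ε) :
    ∃ (ν : ℝ) (K q₀ : ℕ), 0 < ν ∧ 1 ≤ K ∧ ∀ (q : ℕ) [NeZero q], q₀ ≤ q →
    ∀ X : ℝ, (q : ℝ) ≤ X → ∀ B : Finset ℕ, (B.card : ℝ) ≤ (q : ℝ) ^ β →
    ∀ m : ℝ → ℝ, IntervalIntegrable (fun x => (∑ a ∈ (Icc 1 q).filter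
        (fun a => Nat.Coprime a q ∧ a ∉ B), (EM.psi x q a - m x) ^ 2) / x ^ (1 + 2 * θ))
        MeasureTheory.volume X (X ^ K) →
    ∑ χ ∈ nt q, ∑ ρ ∈ TS.Zf χ θ ((q : ℝ) ^ ν), TS.mu χ ρ * X ^ (2 * (ρ.re - θ))
      ≤ q.totient * X ^ ε * ∫ x in X..(X ^ K), (∑ a ∈ (Icc 1 q).filter
        (fun a => Nat.Coprime a q ∧ a ∉ B), (EM.psi x q a - m x) ^ 2) / x ^ (1 + 2 * θ) := by
  obtain ⟨ν, K, q₁, hν, hK, hv⟩ := zeros_weightedU θ β ε hθ hθ1 hβ hε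
  refine ⟨ν, K, q₁ + 1, hν, hK, fun q _ hq X hX1 B hB m hm => ?_⟩
  have hq1 : (1 : ℝ) ≤ q := by exact_mod_cast (by omega : 1 ≤ q)
  have hX : 1 ≤ X := hq1.trans hX1
  have hX0 : 0 < X := by linarith
  have hXK : X ≤ X ^ K := le_self_pow₀ hX (by omega)
  obtain ⟨B', hB'def⟩ : ∃ B' : Finset (ZMod q)ˣ,
    B' = (B.filter (fun a => Nat.Coprime a q)).image (un q) := ⟨_, rfl⟩
  have hB' : (B'.card : ℝ) ≤ (q : ℝ) ^ β := by
    refine le_trans ?_ hB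
    rw [hB'def]
    exact_mod_cast Finset.card_image_le.trans (Finset.card_filter_le _ _)
  refine (hv q (by omega) X hX1 B' hB').trans ?_
  refine mul_le_mul_of_nonneg_left ?_ (by positivity)
  rw [intervalIntegral.integral_of_le hXK]
  refine MeasureTheory.setIntegral_mono_on (MW.VB_int q B' θ hθ X _ hX)
    ((intervalIntegrable_iff_integrableOn_Ioc_of_le hXK).mp hm) measurableSet_Ioc ?_
  intro x hx
  have hx0 : 0 < x := hX0.trans hx.1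
  have h1 := Fin2_le q B x (m x)
  rw [← hB'def] at h1
  exact div_le_div_of_nonneg_right h1 (Real.rpow_nonneg hx0.le _)

end Pool.Agent.MU
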