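import Mathlib
import Pool.Agent.Lib.MP_9cfc0a_nt.Mg.G023
import Pool.Agent.Lib.MP_9cfc0a_nt.Mg.G042
import Pool.Agent.Lib.MP_9cfc0a_nt.Mg.G037
import Pool.Agent.Lib.MP_9cfc0a_nt.Mg.G046
import Pool.Agent.Lib.MP_9cfc0a_nt.Mg.G047

set_option autoImplicit false

namespace Pool.Agent.MU

open Complex Finset MY MZ MW

/-- U15a. The variance outside few classes, `θ = 1/2`. -/
theorem half_off (β ε : ℝ) (hβ : β < 1 / 3) (hε : 0 < ε) :
    ∃ (K q₀ : ℕ), 1 ≤ K ∧ ∀ (q : ℕ) [NeZero q], q₀ ≤ q → ∀ X : ℝ, (q : ℝ) ≤ X →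
    ∀ B : Finset (ZMod q)ˣ, (B.card : ℝ) ≤ (q : ℝ) ^ β →
    X ^ (-ε) ≤ ∫ x in Set.Ioc X (X ^ K), VB q B x / x ^ 2 := by
  obtain ⟨ν, K, q₁, hν, hK, hv⟩ := zeros_offU (1 / 2) β (ε / 2) le_rfl (by norm_num)
    (by norm_num; linarith) (by linarith)
  obtain ⟨q₂, hq₂⟩ := NZ_half
  have hev : ∀ᶠ q : ℕ in Filter.atTop, (2 : ℝ) ≤ (q : ℝ) ^ ν ∧ (4 : ℝ) ≤ (q : ℝ) ^ (ε / 2) := by
    have h1 := (tendsto_rpow_atTop hν).comp (tendsto_natCast_atTop_atTop (R := ℝ))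
    have h2 := (tendsto_rpow_atTop (show 0 < ε / 2 by linarith)).comp
      (tendsto_natCast_atTop_atTop (R := ℝ))
    exact (h1.eventually_ge_atTop 2).and (h2.eventually_ge_atTop 4)
  obtain ⟨q₃, hq₃⟩ := Filter.eventually_atTop.mp hev
  refine ⟨K, q₁ + q₂ + q₃ + 1, hK, fun q _ hq X hX1 B hB => ?_⟩
  have hq1 : (1 : ℝ) ≤ q := by exact_mod_cast (by omega : 1 ≤ q)
  have hq0 : (0 : ℝ) < q := by linarith
  have hX : 1 ≤ X := hq1.trans hX1
  have hX0 : 0 < X := by linarith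
  have h1 := hv q (by omega) X hX1 B hB
  have h2 := hq₂ q (by omega) ((q : ℝ) ^ ν) (hq₃ q (by omega)).1
  have h3 := (hq₃ q (by omega)).2
  have hφ : (0 : ℝ) < q.totient := by
    exact_mod_cast Nat.totient_pos.mpr (by omega : 0 < q)
  have h4 : (4 : ℝ) ≤ X ^ (ε / 2) := h3.trans (Real.rpow_le_rpow hq0.le hX1 (by linarith))
  have h5 : ∫ x in Set.Ioc X (X ^ K), VB q B x / x ^ (1 + 2 * (1 / 2 : ℝ))
      = ∫ x in Set.Ioc X (X ^ K), VB q B x / x ^ 2 := by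
    refine MeasureTheory.setIntegral_congr_fun measurableSet_Ioc fun x hx => ?_
    have hx0 : 0 < x := hX0.trans hx.1
    show VB q B x / x ^ (1 + 2 * (1 / 2 : ℝ)) = VB q B x / x ^ 2
    rw [show (1 + 2 * (1 / 2 : ℝ)) = ((2 : ℕ) : ℝ) by norm_num, Real.rpow_natCast]
  rw [h5] at h1
  obtain ⟨I, hI⟩ : ∃ I : ℝ, I = ∫ x in Set.Ioc X (X ^ K), VB q B x / x ^ 2 := ⟨_, rfl⟩
  rw [← hI] at h1 ⊢
  have h6 : (q.totient : ℝ) / 4 ≤ q.totient * X ^ (ε / 2) * I := h2.trans h1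
  have h7 : (1 : ℝ) / 4 ≤ X ^ (ε / 2) * I := by
    have h8 : (q.totient : ℝ) * (1 / 4) ≤ q.totient * (X ^ (ε / 2) * I) := by linarith
    exact le_of_mul_le_mul_left h8 hφ
  have h9 : 0 < X ^ (ε / 2) := Real.rpow_pos_of_pos hX0 _
  have h10 : X ^ (-ε) = (X ^ (ε / 2))⁻¹ * (X ^ (ε / 2))⁻¹ := by
    rw [← Real.rpow_neg hX0.le, ← Real.rpow_add hX0]
    congr 1
    ring
  rw [h10, inv_mul_le_iff₀ h9]
  refine le_trans ?_ h7
  rw [inv_le_comm₀ h9 (by norm_num)]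
  linarith

/-- U15. The theorem for integers `a`, an arbitrary centre `m(x)`, and pairs of classes. -/
theorem half_off_nat (β ε : ℝ) (hβ : β < 1 / 3) (hε : 0 < ε) : ∃ K q₀ : ℕ, ∀ q : ℕ, q₀ ≤ q →
    ∀ X : ℝ, (q : ℝ) ≤ X → ∀ B : Finset ℕ, (B.card : ℝ) ≤ (q : ℝ) ^ β →
    (∀ m : ℝ → ℝ, IntervalIntegrable (fun x => (∑ a ∈ (Icc 1 q).filter
        (fun a => Nat.Coprime a q ∧ a ∉ B), (EM.psi x q a - m x) ^ 2) / x ^ 2)
        MeasureTheory.volume X (X ^ K) →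
      X ^ (-ε) ≤ ∫ x in X..(X ^ K), (∑ a ∈ (Icc 1 q).filter
        (fun a => Nat.Coprime a q ∧ a ∉ B), (EM.psi x q a - m x) ^ 2) / x ^ 2) ∧
    ∃ a a' : ℕ, (1 ≤ a ∧ a ≤ q ∧ Nat.Coprime a q ∧ a ∉ B) ∧
      (1 ≤ a' ∧ a' ≤ q ∧ Nat.Coprime a' q ∧ a' ∉ B) ∧ ∃ x : ℝ, X ≤ x ∧ x ≤ X ^ K ∧
      (x / q) ^ (1 / 2 : ℝ) / X ^ ε ≤ |EM.psi x q a - EM.psi x q a'| := by
  obtain ⟨K₁, q₁, hK1, hv⟩ := half_off β ε hβ hε
  have hev : ∀ᶠ q : ℕ in Filter.atTop, ∀ X : ℝ, (q : ℝ) ≤ X →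
      ((K₁ + 1 : ℕ) : ℝ) * Real.log X < X ^ ε := by
    have h1 : (fun x : ℝ => ((K₁ + 1 : ℕ) : ℝ) * Real.log x) =o[Filter.atTop]
        fun x : ℝ => x ^ ε := (isLittleO_log_rpow_atTop hε).const_mul_left _
    have h2 := h1.bound (show (0 : ℝ) < 1 / 2 by norm_num)
    have h3 : ∀ᶠ x : ℝ in Filter.atTop,
        ((K₁ + 1 : ℕ) : ℝ) * Real.log x < x ^ ε := by
      filter_upwards [h2, Filter.eventually_gt_atTop 0] with x hx hx0
      have h4 : 0 < x ^ ε := Real.rpow_pos_of_pos hx0 ε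
      rw [Real.norm_eq_abs, Real.norm_eq_abs, abs_of_pos h4] at hx
      exact lt_of_le_of_lt ((le_abs_self _).trans hx) (by linarith)
    obtain ⟨x₀, hx₀⟩ := Filter.eventually_atTop.mp h3
    obtain ⟨n₀, hn₀⟩ := exists_nat_ge x₀
    refine Filter.eventually_atTop.mpr ⟨n₀, fun q hq X hX => hx₀ X ?_⟩
    have : (n₀ : ℝ) ≤ q := by exact_mod_cast hq
    linarith
  obtain ⟨q₂, hq₂⟩ := Filter.eventually_atTop.mp hev
  refine ⟨K₁ + 1, q₁ + q₂ + 2, fun q hq X hX1 B hB => ?_⟩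
  haveI : NeZero q := ⟨by omega⟩
  have hq1 : (1 : ℝ) ≤ q := by exact_mod_cast (by omega : 1 ≤ q)
  have hq0 : (0 : ℝ) < q := by linarith
  have hX : 1 ≤ X := hq1.trans hX1
  have hX0 : 0 < X := by linarith
  have hXK : X ≤ X ^ (K₁ + 1) := le_self_pow₀ hX (by omega)
  obtain ⟨B', hB'def⟩ : ∃ B' : Finset (ZMod q)ˣ,
    B' = (B.filter (fun a => Nat.Coprime a q)).image (un q) := ⟨_, rfl⟩
  have hB' : (B'.card : ℝ) ≤ (q : ℝ) ^ β := by
    refine le_trans ?_ hB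
    rw [hB'def]
    exact_mod_cast Finset.card_image_le.trans (Finset.card_filter_le _ _)
  have hlow : X ^ (-ε) ≤ ∫ x in Set.Ioc X (X ^ (K₁ + 1)), VB q B' x / x ^ 2 := by
    refine (hv q (by omega) X hX1 B' hB').trans ?_
    refine MeasureTheory.setIntegral_mono_set (MZ.VB_int q B' X (X ^ (K₁ + 1)) hX) ?_ ?_
    · exact Filter.Eventually.of_forall fun x => div_nonneg (VB_nonneg q B' x) (sq_nonneg x)
    · refine Filter.Eventually.of_forall ?_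
      exact Set.Ioc_subset_Ioc_right (pow_le_pow_right₀ hX (by omega))
  refine ⟨fun m hm => ?_, ?_⟩
  · refine hlow.trans ?_
    rw [intervalIntegral.integral_of_le hXK]
    refine MeasureTheory.setIntegral_mono_on (MZ.VB_int q B' X _ hX)
      ((intervalIntegrable_iff_integrableOn_Ioc_of_le hXK).mp hm) measurableSet_Ioc ?_
    intro x _
    have h1 := Fin2_le q B x (m x)
    rw [← hB'def] at h1
    exact div_le_div_of_nonneg_right h1 (sq_nonneg x)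
  · by_contra hcon
    push Not at hcon
    have hqε : 0 < X ^ ε := Real.rpow_pos_of_pos hX0 ε
    have hpt : ∀ x ∈ Set.Ioc X (X ^ (K₁ + 1)),
        VB q B' x / x ^ 2 ≤ (X ^ ε)⁻¹ ^ 2 * x⁻¹ := by
      intro x hx
      have hx0 : 0 < x := hX0.trans hx.1
      have h1 : VB q B' x ≤ q.totient * ((x / q) ^ (1 / 2 : ℝ) / X ^ ε) ^ 2 := by
        refine Fin2_small q B' x _ fun c hc c' hc' => ?_
        rw [hB'def] at hc hc'
        obtain ⟨a, ha, hac⟩ := Fin2_rep q B c hc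
        obtain ⟨a', ha', hac'⟩ := Fin2_rep q B c' hc'
        have h2 := hcon a a' ha ha' x hx.1.le hx.2
        rw [← hac, ← hac', psiU_eq q a ha.2.2.1, psiU_eq q a' ha'.2.2.1]
        exact h2.le
      have h3 : ((x / q) ^ (1 / 2 : ℝ) / X ^ ε) ^ 2 = x / q * (X ^ ε)⁻¹ ^ 2 := by
        rw [div_eq_mul_inv, mul_pow, ← Real.rpow_natCast ((x / q) ^ (1 / 2 : ℝ)) 2,
          ← Real.rpow_mul (by positivity)]
        norm_num
      rw [h3] at h1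
      have h4 : (q.totient : ℝ) ≤ q := by exact_mod_cast Nat.totient_le q
      have h5 : VB q B' x ≤ x * (X ^ ε)⁻¹ ^ 2 := by
        refine h1.trans ?_
        calc (q.totient : ℝ) * (x / q * (X ^ ε)⁻¹ ^ 2)
            ≤ q * (x / q * (X ^ ε)⁻¹ ^ 2) := by gcongr
          _ = x * (X ^ ε)⁻¹ ^ 2 := by field_simp
      rw [div_le_iff₀ (by positivity)]
      refine h5.trans (le_of_eq ?_)
      field_simp
    have hint : MeasureTheory.IntegrableOn (fun x : ℝ => (X ^ ε)⁻¹ ^ 2 * x⁻¹)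
        (Set.Ioc X (X ^ (K₁ + 1))) := by
      rw [← intervalIntegrable_iff_integrableOn_Ioc_of_le hXK]
      refine IntervalIntegrable.const_mul ?_ _
      refine intervalIntegral.intervalIntegrable_inv (fun x hx => ?_) continuousOn_id
      rw [Set.uIcc_of_le hXK] at hx
      have : 0 < x := hX0.trans_le hx.1
      exact this.ne'
    have hup : ∫ x in Set.Ioc X (X ^ (K₁ + 1)), VB q B' x / x ^ 2
        ≤ ∫ x in Set.Ioc X (X ^ (K₁ + 1)), (X ^ ε)⁻¹ ^ 2 * x⁻¹ :=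
      MeasureTheory.setIntegral_mono_on (MZ.VB_int q B' X _ hX) hint measurableSet_Ioc hpt
    have hval : ∫ x in Set.Ioc X (X ^ (K₁ + 1)), (X ^ ε)⁻¹ ^ 2 * x⁻¹
        = (X ^ ε)⁻¹ ^ 2 * Real.log (X ^ (K₁ + 1) / X) := by
      rw [← intervalIntegral.integral_of_le hXK, intervalIntegral.integral_const_mul,
        integral_inv_of_pos hX0 (by positivity)]
    have hlog : Real.log (X ^ (K₁ + 1) / X) ≤ ((K₁ + 1 : ℕ) : ℝ) * Real.log X := by
      rw [Real.log_div (by positivity) hX0.ne', Real.log_pow]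
      have h6 : 0 ≤ Real.log X := Real.log_nonneg hX
      linarith
    have h9 := hq₂ q (by omega) X hX1
    rw [hval] at hup
    have h10 : X ^ (-ε) ≤ (X ^ ε)⁻¹ ^ 2 * Real.log (X ^ (K₁ + 1) / X) :=
      hlow.trans hup
    have h11 : (X ^ ε)⁻¹ ^ 2 * Real.log (X ^ (K₁ + 1) / X)
        < (X ^ ε)⁻¹ ^ 2 * X ^ ε := by
      refine mul_lt_mul_of_pos_left (hlog.trans_lt h9) (by positivity)
    rw [Real.rpow_neg hX0.le] at h10
    have h12 : (X ^ ε)⁻¹ ^ 2 * X ^ ε = (X ^ ε)⁻¹ := by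
      field_simp
    linarith

end Pool.Agent.MU
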