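import Mathlib
import Pool.Agent.Lib.MP_9cfc0a_nt.Mg.G023
import Pool.Agent.Lib.MP_9cfc0a_nt.MW.A12
import Pool.Agent.Lib.MP_9cfc0a_nt.MY.C3

set_option autoImplicit false

namespace Pool.Agent.MU

open Complex Finset MY MZ MW

/-- Cauchy's inequality with geometric weights. -/
private lemma U5_cauchy (u : ℕ → ℝ) (hu : ∀ i, 0 ≤ u i) (k : ℕ) :
    (∑ i ∈ range (k + 1), (6 / 7 : ℝ) ^ i * Real.sqrt (u (k - i))) ^ 2
      ≤ 7 * ∑ i ∈ range (k + 1), (6 / 7 : ℝ) ^ i * u (k - i) := by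
  have h1 := Finset.sum_mul_sq_le_sq_mul_sq (range (k + 1))
    (fun i => Real.sqrt ((6 / 7 : ℝ) ^ i))
    (fun i => Real.sqrt ((6 / 7 : ℝ) ^ i) * Real.sqrt (u (k - i)))
  have h2 : ∀ i, Real.sqrt ((6 / 7 : ℝ) ^ i) * (Real.sqrt ((6 / 7 : ℝ) ^ i) *
      Real.sqrt (u (k - i))) = (6 / 7 : ℝ) ^ i * Real.sqrt (u (k - i)) := by
    intro i
    rw [← mul_assoc, Real.mul_self_sqrt (by positivity)]
  have h3 : ∀ i, (Real.sqrt ((6 / 7 : ℝ) ^ i)) ^ 2 = (6 / 7 : ℝ) ^ i := fun i =>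
    Real.sq_sqrt (by positivity)
  have h4 : ∀ i, (Real.sqrt ((6 / 7 : ℝ) ^ i) * Real.sqrt (u (k - i))) ^ 2 =
      (6 / 7 : ℝ) ^ i * u (k - i) := by
    intro i
    rw [mul_pow, h3, Real.sq_sqrt (hu _)]
  simp only [h2, h3, h4] at h1
  refine h1.trans ?_
  refine mul_le_mul_of_nonneg_right ?_ (sum_nonneg fun i _ => mul_nonneg (by positivity) (hu _))
  rw [geom_sum_eq (by norm_num)]
  have h5 : 0 < (6 / 7 : ℝ) ^ (k + 1) := by positivity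
  rw [div_le_iff_of_neg (by norm_num)]
  linarith

private lemma U5_Ec (q : ℕ) [NeZero q] (θ : ℝ) (hθ : 1 / 2 ≤ θ) (hθ1 : θ < 1) (κ : ℕ) (U : ℝ)
    (hU : 0 < U) (s : ℂ) (k : ℕ) :
    (Ec q κ U s k * (2 - θ) ^ k) ^ 2 ≤ 2 * ((q : ℝ) * (6 / 7 : ℝ) ^ k) ^ 2 +
      14 * ((q : ℝ) ^ (κ + 1) * U ^ (-(κ : ℝ))) ^ 2 *
        ∑ i ∈ range (k + 1), (6 / 7 : ℝ) ^ i * uA q θ s (k - i) := by
  have hρ0 : 0 < 2 - θ := by linarith
  have hρ : 4 / 7 * (2 - θ) ≤ 6 / 7 := by linarith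
  have huA : ∀ i, 0 ≤ uA q θ s i := fun i => sum_nonneg fun _ _ => sq_nonneg _
  set w : ℝ := (q : ℝ) ^ (κ + 1) * U ^ (-(κ : ℝ)) with hw
  have hw0 : 0 ≤ w := by positivity
  have hpow : ∀ i : ℕ, (4 / 7 : ℝ) ^ i * (2 - θ) ^ i ≤ (6 / 7 : ℝ) ^ i := by
    intro i
    rw [← mul_pow]
    exact pow_le_pow_left₀ (by positivity) hρ i
  have hsqrt : ∀ j : ℕ, Real.sqrt (∑ c : (ZMod q)ˣ, ‖Dk q s j c‖ ^ 2) * (2 - θ) ^ j =
      Real.sqrt (uA q θ s j) := by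
    intro j
    have h1 : uA q θ s j = (∑ c : (ZMod q)ˣ, ‖Dk q s j c‖ ^ 2) * ((2 - θ) ^ j) ^ 2 := by
      unfold uA
      rw [sum_mul]
      exact sum_congr rfl fun c _ => by ring
    rw [h1, Real.sqrt_mul (sum_nonneg fun _ _ => sq_nonneg _), Real.sqrt_sq (by positivity)]
  have h0 : 0 ≤ Ec q κ U s k * (2 - θ) ^ k := by
    unfold Ec
    have : 0 ≤ ∑ i ∈ range (k + 1), (4 / 7 : ℝ) ^ i *
        Real.sqrt (∑ c : (ZMod q)ˣ, ‖Dk q s (k - i) c‖ ^ 2) :=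
      sum_nonneg fun i _ => by positivity
    positivity
  have h1 : Ec q κ U s k * (2 - θ) ^ k ≤ (q : ℝ) * (6 / 7 : ℝ) ^ k +
      w * ∑ i ∈ range (k + 1), (6 / 7 : ℝ) ^ i * Real.sqrt (uA q θ s (k - i)) := by
    unfold Ec
    rw [← hw, add_mul]
    refine add_le_add ?_ ?_
    · rw [mul_assoc]
      exact mul_le_mul_of_nonneg_left (hpow k) (by positivity)
    · rw [mul_assoc]
      refine mul_le_mul_of_nonneg_left ?_ hw0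
      rw [sum_mul]
      refine sum_le_sum fun i hi => ?_
      have hik : i + (k - i) = k := by
        have := mem_range.mp hi
        omega
      calc (4 / 7 : ℝ) ^ i * Real.sqrt (∑ c : (ZMod q)ˣ, ‖Dk q s (k - i) c‖ ^ 2) * (2 - θ) ^ k
          = ((4 / 7 : ℝ) ^ i * (2 - θ) ^ i) *
            (Real.sqrt (∑ c : (ZMod q)ˣ, ‖Dk q s (k - i) c‖ ^ 2) * (2 - θ) ^ (k - i)) := by
            conv_lhs => rw [← hik, pow_add]
            rw [Nat.add_sub_cancel_left]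
            ring
        _ = ((4 / 7 : ℝ) ^ i * (2 - θ) ^ i) * Real.sqrt (uA q θ s (k - i)) := by rw [hsqrt]
        _ ≤ (6 / 7 : ℝ) ^ i * Real.sqrt (uA q θ s (k - i)) :=
            mul_le_mul_of_nonneg_right (hpow i) (Real.sqrt_nonneg _)
  have h2 := U5_cauchy (uA q θ s) huA k
  calc (Ec q κ U s k * (2 - θ) ^ k) ^ 2
      ≤ ((q : ℝ) * (6 / 7 : ℝ) ^ k +
        w * ∑ i ∈ range (k + 1), (6 / 7 : ℝ) ^ i * Real.sqrt (uA q θ s (k - i))) ^ 2 :=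
        pow_le_pow_left₀ h0 h1 2
    _ ≤ 2 * ((q : ℝ) * (6 / 7 : ℝ) ^ k) ^ 2 +
        2 * (w * ∑ i ∈ range (k + 1), (6 / 7 : ℝ) ^ i * Real.sqrt (uA q θ s (k - i))) ^ 2 := by
        nlinarith [sq_nonneg ((q : ℝ) * (6 / 7 : ℝ) ^ k -
          w * ∑ i ∈ range (k + 1), (6 / 7 : ℝ) ^ i * Real.sqrt (uA q θ s (k - i)))]
    _ ≤ _ := by
        rw [mul_pow w]
        have h3 := mul_le_mul_of_nonneg_left h2 (by positivity : 0 ≤ 2 * w ^ 2)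
        linarith

/-- U5. The analytic error term (numbers). -/
theorem REU (θ ε₀ C₁ : ℝ) (κ : ℕ) (hθ : 1 / 2 ≤ θ) (hθ1 : θ < 1) (h0 : 0 < ε₀)
    (h1 : ε₀ ≤ 1 / 10) (hC₁ : 0 ≤ C₁) (hκ : 12 ≤ ε₀ / 40 * κ) :
    ∃ (ν : ℝ) (q₀ : ℕ), 0 < ν ∧ ν ≤ 1 / 4 ∧ ∀ (q : ℕ) [NeZero q], q₀ ≤ q →
    ∀ S : ℝ, 3 ≤ S → S + 2 ≤ (q : ℝ) ^ ν →
    ∀ X : ℝ, (q : ℝ) ≤ X → ∀ B : Finset (ZMod q)ˣ, B.Nonempty →
    (B.card : ℝ) ≤ (q : ℝ) ^ (θ / (2 - θ) - ε₀) → ∀ (s : ℂ) (k : ℕ), 60 * Real.log X ≤ k →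
    ∑ a ∈ B, (C₁ * (S + 2) ^ (κ + 1) * (Dz q B (ZW q θ ε₀) a).card * Ec q κ (UU q ε₀) s k
          * (2 - θ) ^ k) ^ 2
      ≤ X ^ (-6 : ℝ) + (q : ℝ) ^ (-1 : ℝ) * ∑ i ∈ range (k + 1), (6 / 7 : ℝ) ^ i * uA q θ s (k - i) := by
  obtain ⟨_, q₁, -, hrow⟩ := rowcol θ ε₀ hθ hθ1 h0 h1
  have hκ0 : (0 : ℝ) ≤ κ := Nat.cast_nonneg κ
  have hν0 : (0 : ℝ) < 1 / (2 * κ + 4) := by positivity
  have hν1 : (1 : ℝ) / (2 * κ + 4) ≤ 1 / 4 :=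
    one_div_le_one_div_of_le (by norm_num) (by linarith)
  refine ⟨1 / (2 * κ + 4), max (max 2 q₁) ⌈14 * C₁ ^ 2⌉₊, hν0, hν1, ?_⟩
  intro q _ hq S hS hSq X hX B hBne hB s k hk
  have hq2 : 2 ≤ q := ((le_max_left _ _).trans (le_max_left _ _)).trans hq
  have hq1 : q₁ ≤ q := ((le_max_right _ _).trans (le_max_left _ _)).trans hq
  have hqC : 14 * C₁ ^ 2 ≤ (q : ℝ) := (Nat.le_ceil _).trans
    (by exact_mod_cast (le_max_right _ _).trans hq)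
  have hQ2 : (2 : ℝ) ≤ q := by exact_mod_cast hq2
  obtain ⟨-, hDz, -⟩ := hrow q hq1 B hBne hB
  set Q : ℝ := (q : ℝ) with hQ
  have hQ0 : 0 < Q := by linarith
  have hQ1 : 1 ≤ Q := by linarith
  have hX1 : 1 ≤ X := by linarith
  have hX0 : 0 < X := by linarith
  have hb : (B.card : ℝ) ≤ Q := by
    refine hB.trans ?_
    calc Q ^ (θ / (2 - θ) - ε₀) ≤ Q ^ (1 : ℝ) := by
          refine Real.rpow_le_rpow_of_exponent_le hQ1 ?_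
          have : θ / (2 - θ) ≤ 1 := by
            rw [div_le_one (by linarith)]
            linarith
          linarith
      _ = Q := Real.rpow_one Q
  have hS2 : ((S + 2) ^ (κ + 1)) ^ 2 ≤ Q := by
    calc ((S + 2) ^ (κ + 1)) ^ 2 ≤ ((Q ^ (1 / (2 * (κ : ℝ) + 4))) ^ (κ + 1)) ^ 2 := by
          have h2 : (S + 2) ^ (κ + 1) ≤ (Q ^ (1 / (2 * (κ : ℝ) + 4))) ^ (κ + 1) :=
            pow_le_pow_left₀ (by linarith) hSq _
          exact pow_le_pow_left₀ (by positivity) h2 2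
      _ = Q ^ ((1 / (2 * (κ : ℝ) + 4)) * (((κ + 1) * 2 : ℕ) : ℝ)) := by
          rw [← pow_mul, ← Real.rpow_natCast, ← Real.rpow_mul hQ0.le]
      _ ≤ Q ^ (1 : ℝ) := by
          refine Real.rpow_le_rpow_of_exponent_le hQ1 ?_
          rw [one_div, inv_mul_le_iff₀ (by positivity)]
          push_cast
          linarith
      _ = Q := Real.rpow_one Q
  have hU0 : 0 < UU q ε₀ := Real.rpow_pos_of_pos hQ0 _
  have hEc := U5_Ec q θ hθ hθ1 κ (UU q ε₀) hU0 s k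
  rw [← hQ] at hEc
  set G : ℝ := ∑ i ∈ range (k + 1), (6 / 7 : ℝ) ^ i * uA q θ s (k - i) with hG
  have hG0 : 0 ≤ G := sum_nonneg fun i _ => mul_nonneg (by positivity)
    (sum_nonneg fun _ _ => sq_nonneg _)
  set w : ℝ := Q ^ (κ + 1) * (UU q ε₀) ^ (-(κ : ℝ)) with hw
  have hw0 : 0 ≤ w := by positivity
  have hw11 : w ≤ (Q ^ 11)⁻¹ := by
    have h2 : w = Q ^ (((κ : ℝ) + 1) + (1 + ε₀ / 40) * (-(κ : ℝ))) := by
      rw [hw, Real.rpow_add hQ0, Real.rpow_mul hQ0.le]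
      congr 1
      rw [← Real.rpow_natCast]
      push_cast
      rfl
    have h3 : (Q ^ 11)⁻¹ = Q ^ (-11 : ℝ) := by
      rw [Real.rpow_neg hQ0.le]
      norm_cast
    rw [h2, h3]
    refine Real.rpow_le_rpow_of_exponent_le hQ1 ?_
    linarith
  have hw22 : w ^ 2 ≤ (Q ^ 22)⁻¹ := by
    calc w ^ 2 ≤ ((Q ^ 11)⁻¹) ^ 2 := pow_le_pow_left₀ hw0 hw11 2
      _ = (Q ^ 22)⁻¹ := by rw [inv_pow, ← pow_mul]
  have hgeo : (6 / 7 : ℝ) ^ (2 * k) ≤ (X ^ 17)⁻¹ := by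
    have h2 := C3_geo (6 / 7) (1 / 7) 17 X (by norm_num) (by norm_num) hX1 (2 * k) (by
      push_cast
      have : 0 ≤ Real.log X := Real.log_nonneg hX1
      linarith)
    refine h2.trans (le_of_eq ?_)
    rw [Real.rpow_neg hX0.le]
    norm_cast
  -- one term
  have hterm : ∀ a ∈ B, (C₁ * (S + 2) ^ (κ + 1) * (Dz q B (ZW q θ ε₀) a).card *
      Ec q κ (UU q ε₀) s k * (2 - θ) ^ k) ^ 2 ≤
      C₁ ^ 2 * Q * Q ^ 2 * (2 * (Q * (6 / 7 : ℝ) ^ k) ^ 2 + 14 * w ^ 2 * G) := by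
    intro a _
    have h2 : ((Dz q B (ZW q θ ε₀) a).card : ℝ) ^ 2 ≤ Q ^ 2 :=
      pow_le_pow_left₀ (Nat.cast_nonneg _) (hDz a) 2
    calc (C₁ * (S + 2) ^ (κ + 1) * (Dz q B (ZW q θ ε₀) a).card *
          Ec q κ (UU q ε₀) s k * (2 - θ) ^ k) ^ 2
        = C₁ ^ 2 * ((S + 2) ^ (κ + 1)) ^ 2 * ((Dz q B (ZW q θ ε₀) a).card : ℝ) ^ 2 *
          (Ec q κ (UU q ε₀) s k * (2 - θ) ^ k) ^ 2 := by ring
      _ ≤ C₁ ^ 2 * Q * Q ^ 2 * (2 * (Q * (6 / 7 : ℝ) ^ k) ^ 2 + 14 * w ^ 2 * G) := by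
          gcongr
  have hR0 : 0 ≤ C₁ ^ 2 * Q * Q ^ 2 * (2 * (Q * (6 / 7 : ℝ) ^ k) ^ 2 + 14 * w ^ 2 * G) := by
    positivity
  refine (sum_le_sum hterm).trans ?_
  rw [sum_const, nsmul_eq_mul]
  have hC2 : 0 ≤ C₁ ^ 2 := sq_nonneg _
  calc (B.card : ℝ) * (C₁ ^ 2 * Q * Q ^ 2 * (2 * (Q * (6 / 7 : ℝ) ^ k) ^ 2 + 14 * w ^ 2 * G))
      ≤ Q * (C₁ ^ 2 * Q * Q ^ 2 * (2 * (Q * (6 / 7 : ℝ) ^ k) ^ 2 + 14 * w ^ 2 * G)) :=
        mul_le_mul_of_nonneg_right hb hR0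
    _ = (2 * C₁ ^ 2) * Q ^ 6 * (6 / 7 : ℝ) ^ (2 * k) + (14 * C₁ ^ 2) * Q ^ 4 * w ^ 2 * G := by
        rw [pow_mul']
        ring
    _ ≤ X ^ (-6 : ℝ) + Q ^ (-1 : ℝ) * G := by
        refine add_le_add ?_ ?_
        · have h2 : (2 * C₁ ^ 2) * Q ^ 6 ≤ X ^ 7 := by
            calc (2 * C₁ ^ 2) * Q ^ 6 ≤ Q * Q ^ 6 :=
                  mul_le_mul_of_nonneg_right (by linarith) (by positivity)
              _ = Q ^ 7 := by ring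
              _ ≤ X ^ 7 := pow_le_pow_left₀ hQ0.le hX 7
          have h3 : X ^ (-6 : ℝ) = (X ^ 6)⁻¹ := by
            rw [Real.rpow_neg hX0.le]
            norm_cast
          rw [h3]
          calc (2 * C₁ ^ 2) * Q ^ 6 * (6 / 7 : ℝ) ^ (2 * k) ≤ X ^ 7 * (X ^ 17)⁻¹ :=
                mul_le_mul h2 hgeo (by positivity) (by positivity)
            _ = (X ^ 10)⁻¹ := by
                field_simp
            _ ≤ (X ^ 6)⁻¹ := by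
                apply inv_anti₀ (by positivity)
                exact pow_le_pow_right₀ hX1 (by norm_num)
        · refine mul_le_mul_of_nonneg_right ?_ hG0
          rw [Real.rpow_neg_one]
          calc 14 * C₁ ^ 2 * Q ^ 4 * w ^ 2 ≤ Q * Q ^ 4 * (Q ^ 22)⁻¹ := by
                gcongr
            _ = (Q ^ 17)⁻¹ := by
                field_simp
            _ ≤ Q⁻¹ := by
                apply inv_anti₀ hQ0
                exact le_self_pow₀ hQ1 (by norm_num)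

end Pool.Agent.MU
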